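import Pool.Agent.H810.Tunnel.Defs

/-!
# Angle sums

If the products of the shape parameters around the edges are `1` and there are as many edges as
tetrahedra, then the dihedral angles add up to `2 π` around each edge.
-/

set_option autoImplicit false

namespace Pool.Agent.H810.Tunnel

open Real

theorem par_im_pos {z : ℂ} (hz : 0 < z.im) (k : Fin 3) : 0 < (par z k).im := by
  have hz0 : z ≠ 0 := by rintro rfl; simp at hz
  have hz1 : 1 - z ≠ 0 := by
    intro h
    have : z = 1 := by linear_combination -h
    rw [this] at hz; simp at hz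
  fin_cases k
  · simpa [par] using hz
  · simp only [par, Fin.mk_one, Matrix.cons_val_one, Matrix.cons_val_zero, one_div,
      Complex.inv_im, Complex.sub_im, Complex.one_im]
    apply div_pos
    · linarith
    · exact Complex.normSq_pos.mpr hz1
  · simp only [par, Fin.reduceFinMk, Matrix.cons_val, one_div, Complex.sub_im, Complex.one_im,
      Complex.inv_im]
    have : 0 < z.im / Complex.normSq z := div_pos hz (Complex.normSq_pos.mpr hz0)
    have e : -z.im / Complex.normSq z = -(z.im / Complex.normSq z) := by ring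
    rw [e]; linarith

theorem arg_pos_lt {z : ℂ} (hz : 0 < z.im) : 0 < z.arg ∧ z.arg < π := by
  constructor
  · rcases lt_or_eq_of_le (Complex.arg_nonneg_iff.mpr hz.le) with h | h
    · exact h
    · exfalso
      have := Complex.arg_eq_zero_iff.mp h.symm
      rw [this.2] at hz
      exact lt_irrefl _ hz
  · rcases lt_or_eq_of_le (Complex.arg_le_pi z) with h | h
    · exact h
    · exfalso
      have := Complex.arg_eq_pi_iff.mp h
      rw [this.2] at hz
      exact lt_irrefl _ hz

theorem exp_arg (z : ℂ) (hz : z ≠ 0) :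
    Complex.exp (z.arg * Complex.I) = z / (‖z‖ : ℂ) := by
  have h := Complex.norm_mul_exp_arg_mul_I z
  have hn : (‖z‖ : ℂ) ≠ 0 := by exact_mod_cast (norm_ne_zero_iff.mpr hz)
  rw [eq_div_iff hn, mul_comm]
  exact h

/-- The three dihedral angles of an ideal tetrahedron add up to `π`. -/
theorem arg_sum {z : ℂ} (hz : 0 < z.im) :
    (par z 0).arg + (par z 1).arg + (par z 2).arg = π := by
  have hz0 : z ≠ 0 := by rintro rfl; simp at hz
  have hz1 : 1 - z ≠ 0 := by
    intro h
    have : z = 1 := by linear_combination -h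
    rw [this] at hz; simp at hz
  have hp := fun k => par_im_pos hz k
  have hne : ∀ k, par z k ≠ 0 := by
    intro k h
    have := hp k
    rw [h] at this; simp at this
  have h0 := arg_pos_lt (hp 0)
  have h1 := arg_pos_lt (hp 1)
  have h2 := arg_pos_lt (hp 2)
  have hprod : par z 0 * par z 1 * par z 2 = -1 := by
    simp only [par, Matrix.cons_val_zero, Matrix.cons_val_one, Matrix.cons_val]
    have hz1' : z - 1 ≠ 0 := by
      intro h; apply hz1; linear_combination -h
    field_simp
    ring
  have hnorm : ‖par z 0‖ * ‖par z 1‖ * ‖par z 2‖ = 1 := by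
    rw [← norm_mul, ← norm_mul, hprod]; simp
  have hnorm' : ((‖par z 0‖ : ℂ) * ‖par z 1‖ * ‖par z 2‖) = 1 := by exact_mod_cast hnorm
  have hexp : Complex.exp (((((par z 0).arg + (par z 1).arg + (par z 2).arg : ℝ) : ℂ)) * Complex.I)
      = Complex.exp ((π : ℂ) * Complex.I) := by
    push_cast
    rw [add_mul, add_mul, Complex.exp_add, Complex.exp_add, exp_arg _ (hne 0), exp_arg _ (hne 1),
      exp_arg _ (hne 2), Complex.exp_pi_mul_I, div_mul_div_comm, div_mul_div_comm, hnorm', hprod,
      div_one]
  rw [Complex.exp_eq_exp_iff_exists_int] at hexp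
  obtain ⟨n, hn⟩ := hexp
  have hn' : ((((par z 0).arg + (par z 1).arg + (par z 2).arg : ℝ) : ℂ)) =
      ((π + n * (2 * π) : ℝ) : ℂ) := by
    have hI : Complex.I ≠ 0 := Complex.I_ne_zero
    apply mul_right_cancel₀ hI
    rw [hn]; push_cast; ring
  have hn'' : (par z 0).arg + (par z 1).arg + (par z 2).arg = π + n * (2 * π) := by
    exact_mod_cast hn'
  have hpi := Real.pi_pos
  have hl : (-1 : ℝ) < n := by
    by_contra hcon
    have hcon := not_lt.mp hcon
    nlinarith
  have hu : (n : ℝ) < 1 := by
    by_contra hcon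
    have hcon := not_lt.mp hcon
    nlinarith
  have hl' : -1 < n := by exact_mod_cast hl
  have hu' : n < 1 := by exact_mod_cast hu
  have : n = 0 := by omega
  rw [hn'', this]; simp

variable {N : ℕ}

theorem IdealTriangulation.edge_symm (T : IdealTriangulation N) {j : Fin N} {v w : Fin 4}
    (h : v ≠ w) : T.edge j v w = T.edge j w v :=
  (T.edge_eq_iff h h.symm).mpr (Relation.EqvGen.rel _ _ (Gluing.EdgeStep.flip j v w))

theorem angle_sum (T : IdealTriangulation N) (z : Fin N → ℂ) (hz : ∀ j, 0 < (z j).im)
    (hprod : ∀ e, ∏ j, ∏ v, ∏ w,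
      (if v < w ∧ T.edge j v w = e then par (z j) (kind v w) else 1) = 1) (e : Fin N) :
    ∑ j, ∑ v, ∑ w,
      (if v < w ∧ T.edge j v w = e then (par (z j) (kind v w)).arg else 0) = 2 * π := by
  have hpi := Real.pi_pos
  have harg := fun j k => arg_pos_lt (par_im_pos (hz j) k)
  have hne : ∀ j k, par (z j) k ≠ 0 := by
    intro j k h
    have := par_im_pos (hz j) k
    rw [h] at this; simp at this
  set S : Fin N → ℝ := fun e => ∑ j, ∑ v, ∑ w,
      (if v < w ∧ T.edge j v w = e then (par (z j) (kind v w)).arg else 0) with hS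
  have hnonneg : ∀ e j v w,
      0 ≤ (if v < w ∧ T.edge j v w = e then (par (z j) (kind v w)).arg else 0) := by
    intro e j v w
    split_ifs
    · exact (harg _ _).1.le
    · exact le_rfl
  have hpos : ∀ e, 0 < S e := by
    intro e
    obtain ⟨j, v, w, hvw, he⟩ := T.edge_surj e
    obtain ⟨v', w', hlt, he'⟩ : ∃ v' w', v' < w' ∧ T.edge j v' w' = e := by
      rcases lt_or_gt_of_ne hvw with h | h
      · exact ⟨v, w, h, he⟩
      · exact ⟨w, v, h, by rw [← T.edge_symm hvw]; exact he⟩
    apply Finset.sum_pos'
    · intro j _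
      exact Finset.sum_nonneg fun v _ => Finset.sum_nonneg fun w _ => hnonneg e j v w
    · refine ⟨j, Finset.mem_univ _, ?_⟩
      apply Finset.sum_pos'
      · intro v _
        exact Finset.sum_nonneg fun w _ => hnonneg e j v w
      · refine ⟨v', Finset.mem_univ _, ?_⟩
        apply Finset.sum_pos'
        · intro w _
          exact hnonneg e j v' w
        · refine ⟨w', Finset.mem_univ _, ?_⟩
          rw [if_pos ⟨hlt, he'⟩]
          exact (harg _ _).1
  have hexp : ∀ e, ∃ n : ℤ, S e = n * (2 * π) := by
    intro e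
    have h1 : ∀ j v w, Complex.exp (((if v < w ∧ T.edge j v w = e then
        (par (z j) (kind v w)).arg else 0 : ℝ) : ℂ) * Complex.I) =
        (if v < w ∧ T.edge j v w = e then par (z j) (kind v w) else 1) /
          ((‖(if v < w ∧ T.edge j v w = e then par (z j) (kind v w) else 1)‖ : ℝ) : ℂ) := by
      intro j v w
      split_ifs
      · exact exp_arg _ (hne _ _)
      · simp
    have h2 : Complex.exp ((S e : ℂ) * Complex.I) = 1 := by
      have : ((S e : ℝ) : ℂ) * Complex.I = ∑ j, ∑ v, ∑ w,
          (((if v < w ∧ T.edge j v w = e then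
            (par (z j) (kind v w)).arg else 0 : ℝ) : ℂ) * Complex.I) := by
        rw [hS]; push_cast; simp only [Finset.sum_mul]
      rw [this]
      simp only [Complex.exp_sum, h1]
      simp only [Finset.prod_div_distrib]
      simp only [← Complex.ofReal_prod, ← norm_prod]
      rw [hprod e]
      simp
    rw [Complex.exp_eq_one_iff] at h2
    obtain ⟨n, hn⟩ := h2
    refine ⟨n, ?_⟩
    have hI : Complex.I ≠ 0 := Complex.I_ne_zero
    have : ((S e : ℝ) : ℂ) = ((n * (2 * π) : ℝ) : ℂ) := by
      apply mul_right_cancel₀ hI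
      rw [hn]; push_cast; ring
    exact_mod_cast this
  choose n hn using hexp
  have hn1 : ∀ e, 1 ≤ n e := by
    intro e
    have h1 := hpos e
    rw [hn e] at h1
    have : (0 : ℝ) < n e := by
      by_contra hcon
      have hcon := not_lt.mp hcon
      nlinarith
    have : 0 < n e := by exact_mod_cast this
    omega
  have htot : ∑ e, S e = N * (2 * π) := by
    have h1 : ∑ e, S e = ∑ j, ∑ v, ∑ w : Fin 4,
        (if v < w then (par (z j) (kind v w)).arg else 0) := by
      rw [hS]
      simp only
      rw [Finset.sum_comm]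
      refine Finset.sum_congr rfl fun j _ => ?_
      rw [Finset.sum_comm]
      refine Finset.sum_congr rfl fun v _ => ?_
      rw [Finset.sum_comm]
      refine Finset.sum_congr rfl fun w _ => ?_
      by_cases h : v < w
      · simp [h]
      · simp [h]
    rw [h1]
    have h2 : ∀ j, ∑ v, ∑ w : Fin 4,
        (if v < w then (par (z j) (kind v w)).arg else 0) = 2 * π := by
      intro j
      have h3 := arg_sum (hz j)
      simp [Fin.sum_univ_four, kind]
      linarith
    rw [Finset.sum_congr rfl fun j _ => h2 j]
    simp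
  have hsum : ∑ e, (n e - 1) = 0 := by
    have h1 : (∑ e, (n e : ℝ)) * (2 * π) = N * (2 * π) := by
      rw [Finset.sum_mul, ← htot]
      exact Finset.sum_congr rfl fun e _ => (hn e).symm
    have h2 : (∑ e, (n e : ℝ)) = N := mul_right_cancel₀ (by positivity) h1
    have h3 : (∑ e, n e) = N := by exact_mod_cast h2
    rw [Finset.sum_sub_distrib, h3]; simp
  have hz' := (Finset.sum_eq_zero_iff_of_nonneg (fun e _ => by
    have := hn1 e
    omega)).mp hsum e (Finset.mem_univ e)
  have : n e = 1 := by omega
  have := hn e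
  rw [‹n e = 1›] at this
  simpa using this

end Pool.Agent.H810.Tunnel
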