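import Pool.Agent.H810.Tunnel.Kernel

/-!
# The number `θ` and rigorous numerics in `ℤ[θ]`
-/

set_option autoImplicit false

namespace Pool.Agent.H810.Tunnel

open Polynomial in
/-- The polynomial of `θ`. -/
noncomputable def polyT : Polynomial ℂ := X ^ 5 - X ^ 4 - X ^ 3 + 2 * X ^ 2 - X - 1

open Polynomial in
theorem polyT_eq : polyT = X ^ 5 + (-X ^ 4 - X ^ 3 + C 2 * X ^ 2 - X - C 1) := by
  rw [polyT]
  simp only [map_ofNat, map_one]
  ring

theorem polyT_monic : polyT.Monic := by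
  rw [polyT_eq]
  apply Polynomial.monic_X_pow_add
  compute_degree!

theorem polyT_natDegree : polyT.natDegree = 5 := by
  rw [polyT_eq]
  compute_degree!

/-- The real part of the centre of the approximation. -/
noncomputable def cx : ℝ :=
  685154314446477635385134862669285935857780437564937835400867564294483078307 / 10 ^ 75

/-- The imaginary part of the centre of the approximation. -/
noncomputable def cy : ℝ :=
  -871407150560943477549689644413236815314034457683945313652296386344797671333 / 10 ^ 75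

theorem prod_lower {s : Multiset ℝ} {δ : ℝ} (hδ : 0 ≤ δ) (h : ∀ x ∈ s, δ ≤ x) :
    δ ^ Multiset.card s ≤ s.prod := by
  induction s using Multiset.induction with
  | empty => simp
  | cons a s ih =>
    have h1 := ih (fun x hx => h x (Multiset.mem_cons_of_mem hx))
    have h2 := h a (Multiset.mem_cons_self a s)
    rw [Multiset.prod_cons, Multiset.card_cons, pow_succ, mul_comm]
    exact mul_le_mul h2 h1 (pow_nonneg hδ _) (hδ.trans h2)

theorem exists_root_near (c : ℂ) (δ : ℝ) (hδ : 0 < δ) (h : ‖polyT.eval c‖ < δ ^ 5) :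
    ∃ θ, polyT.eval θ = 0 ∧ ‖c - θ‖ < δ := by
  by_contra hcon
  push Not at hcon
  have hs := IsAlgClosed.splits polyT
  have h1 := hs.eval_eq_prod_roots_of_monic polyT_monic c
  have h2 : ‖polyT.eval c‖ = ((polyT.roots.map fun r => c - r).map fun z => ‖z‖).prod := by
    rw [h1]
    exact map_multiset_prod (normHom : ℂ →*₀ ℝ) _
  have hcard : Multiset.card ((polyT.roots.map fun r => c - r).map fun z => ‖z‖) = 5 := by
    rw [Multiset.card_map, Multiset.card_map, ← hs.natDegree_eq_card_roots, polyT_natDegree]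
  have h3 := prod_lower (s := ((polyT.roots.map fun r => c - r).map fun z => ‖z‖)) hδ.le (by
    intro x hx
    simp only [Multiset.map_map, Multiset.mem_map, Function.comp] at hx
    obtain ⟨r, hr, rfl⟩ := hx
    exact hcon r (Polynomial.isRoot_of_mem_roots hr))
  rw [hcard, ← h2] at h3
  exact absurd h (not_lt.mpr h3)

theorem eval_polyT (z : ℂ) : polyT.eval z = z ^ 5 - z ^ 4 - z ^ 3 + 2 * z ^ 2 - z - 1 := by
  simp [polyT]

theorem norm_polyT_center : ‖polyT.eval (⟨cx, cy⟩ : ℂ)‖ < ((1 : ℝ) / 10 ^ 14) ^ 5 := by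
  have h : Complex.normSq (polyT.eval (⟨cx, cy⟩ : ℂ)) < (((1 : ℝ) / 10 ^ 14) ^ 5) ^ 2 := by
    rw [eval_polyT]
    have e : ((⟨cx, cy⟩ : ℂ) ^ 5 - ⟨cx, cy⟩ ^ 4 - ⟨cx, cy⟩ ^ 3 + 2 * ⟨cx, cy⟩ ^ 2 - ⟨cx, cy⟩ - 1) =
        ⟨(cx ^ 5 - 10 * cx ^ 3 * cy ^ 2 + 5 * cx * cy ^ 4) - (cx ^ 4 - 6 * cx ^ 2 * cy ^ 2 + cy ^ 4)
          - (cx ^ 3 - 3 * cx * cy ^ 2) + 2 * (cx ^ 2 - cy ^ 2) - cx - 1,
        (5 * cx ^ 4 * cy - 10 * cx ^ 2 * cy ^ 3 + cy ^ 5) - (4 * cx ^ 3 * cy - 4 * cx * cy ^ 3)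
          - (3 * cx ^ 2 * cy - cy ^ 3) + 2 * (2 * cx * cy) - cy⟩ := by
      apply Complex.ext
      · simp [pow_succ]; ring
      · simp [pow_succ]; ring
    rw [e, Complex.normSq_mk]
    norm_num [cx, cy]
  rw [Complex.normSq_eq_norm_sq] at h
  exact lt_of_pow_lt_pow_left₀ 2 (by positivity) h

/-- `θ` is a root of the polynomial, and its powers have the given approximations, in units of
`10⁻¹²`. -/
structure Good (θ : ℂ) : Prop where
  eq : Z5.IsTheta θ
  r1 : |(10 ^ 12 : ℝ) * θ.re - 685154314446| ≤ 100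
  i1 : |(10 ^ 12 : ℝ) * θ.im + 871407150561| ≤ 100
  r2 : |(10 ^ 12 : ℝ) * (θ ^ 2).re + 289913987444| ≤ 100
  i2 : |(10 ^ 12 : ℝ) * (θ ^ 2).im + 1194096737693| ≤ 100
  r3 : |(10 ^ 12 : ℝ) * (θ ^ 3).re + 1239180255003| ≤ 100
  i3 : |(10 ^ 12 : ℝ) * (θ ^ 3).im + 565507409990| ≤ 100
  r4 : |(10 ^ 12 : ℝ) * (θ ^ 4).re + 1341816898853| ≤ 100
  i4 : |(10 ^ 12 : ℝ) * (θ ^ 4).im - 692370693237| ≤ 100

theorem mulE {a b A B e f : ℝ} (ha : |a - A| ≤ e) (hb : |b - B| ≤ f) :
    |a * b - A * B| ≤ |A| * f + |B| * e + e * f := by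
  have h1 : a * b - A * B = A * (b - B) + B * (a - A) + (a - A) * (b - B) := by ring
  have he : 0 ≤ e := (abs_nonneg _).trans ha
  rw [h1]
  calc |A * (b - B) + B * (a - A) + (a - A) * (b - B)|
      ≤ |A * (b - B)| + |B * (a - A)| + |(a - A) * (b - B)| := abs_add_three _ _ _
    _ = |A| * |b - B| + |B| * |a - A| + |a - A| * |b - B| := by rw [abs_mul, abs_mul, abs_mul]
    _ ≤ |A| * f + |B| * e + e * f := by
        gcongr

theorem exists_good : ∃ θ, Good θ := by
  obtain ⟨θ, h0, h1⟩ := exists_root_near ⟨cx, cy⟩ _ (by positivity) norm_polyT_center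
  have heq : Z5.IsTheta θ := by
    rw [eval_polyT] at h0
    unfold Z5.IsTheta
    linear_combination h0
  have hre : |θ.re - 685154314446 / 10 ^ 12| ≤ 1 / 10 ^ 12 := by
    have h2 := (Complex.abs_re_le_norm (⟨cx, cy⟩ - θ)).trans h1.le
    rw [Complex.sub_re, abs_le] at h2
    rw [abs_le]
    simp only [cx] at h2
    norm_num at h2 ⊢
    constructor <;> linarith [h2.1, h2.2]
  have him : |θ.im - (-871407150561 / 10 ^ 12)| ≤ 1 / 10 ^ 12 := by
    have h2 := (Complex.abs_im_le_norm (⟨cx, cy⟩ - θ)).trans h1.le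
    rw [Complex.sub_im, abs_le] at h2
    rw [abs_le]
    simp only [cy] at h2
    norm_num at h2 ⊢
    constructor <;> linarith [h2.1, h2.2]
  have step : ∀ (r i R I e : ℝ), |r - R| ≤ e → |i - I| ≤ e →
      |(r * θ.re - i * θ.im) - (R * (685154314446 / 10 ^ 12) - I * (-871407150561 / 10 ^ 12))| ≤
        (|R| + |I|) * (1 / 10 ^ 12) + 2 * e ∧
      |(r * θ.im + i * θ.re) - (R * (-871407150561 / 10 ^ 12) + I * (685154314446 / 10 ^ 12))| ≤
        (|R| + |I|) * (1 / 10 ^ 12) + 2 * e := by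
    intro r i R I e hr hi
    have he : 0 ≤ e := (abs_nonneg _).trans hr
    have a1 := mulE hr hre
    have a2 := mulE hi him
    have a3 := mulE hr him
    have a4 := mulE hi hre
    have n1 : |(685154314446 / 10 ^ 12 : ℝ)| = 685154314446 / 10 ^ 12 := by norm_num
    have n2 : |(-871407150561 / 10 ^ 12 : ℝ)| = 871407150561 / 10 ^ 12 := by norm_num
    rw [n1] at a1 a4
    rw [n2] at a2 a3
    constructor
    · calc _ = |(r * θ.re - R * (685154314446 / 10 ^ 12))
              - (i * θ.im - I * (-871407150561 / 10 ^ 12))| := by congr 1; ring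
        _ ≤ _ := abs_sub _ _
        _ ≤ _ := add_le_add a1 a2
        _ ≤ _ := by
          have : 0 ≤ |R| := abs_nonneg _
          have : 0 ≤ |I| := abs_nonneg _
          norm_num
          linarith
    · calc _ = |(r * θ.im - R * (-871407150561 / 10 ^ 12))
              + (i * θ.re - I * (685154314446 / 10 ^ 12))| := by congr 1; ring
        _ ≤ _ := abs_add_le _ _
        _ ≤ _ := add_le_add a3 a4
        _ ≤ _ := by
          have : 0 ≤ |R| := abs_nonneg _
          have : 0 ≤ |I| := abs_nonneg _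
          norm_num
          linarith
  have p2r : (θ ^ 2).re = θ.re * θ.re - θ.im * θ.im := by simp [pow_two]
  have p2i : (θ ^ 2).im = θ.re * θ.im + θ.im * θ.re := by simp [pow_two]
  have p3r : (θ ^ 3).re = (θ ^ 2).re * θ.re - (θ ^ 2).im * θ.im := by
    rw [pow_succ θ 2, Complex.mul_re]
  have p3i : (θ ^ 3).im = (θ ^ 2).re * θ.im + (θ ^ 2).im * θ.re := by
    rw [pow_succ θ 2, Complex.mul_im]
  have p4r : (θ ^ 4).re = (θ ^ 3).re * θ.re - (θ ^ 3).im * θ.im := by
    rw [pow_succ θ 3, Complex.mul_re]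
  have p4i : (θ ^ 4).im = (θ ^ 3).re * θ.im + (θ ^ 3).im * θ.re := by
    rw [pow_succ θ 3, Complex.mul_im]
  have q2 := step _ _ _ _ _ hre him
  rw [← p2r, ← p2i] at q2
  have s2r : |(θ ^ 2).re - (-289913987444 / 10 ^ 12)| ≤ 6 / 10 ^ 12 := by
    have := q2.1
    rw [abs_le] at this ⊢
    norm_num at this ⊢
    constructor <;> linarith [this.1, this.2]
  have s2i : |(θ ^ 2).im - (-1194096737693 / 10 ^ 12)| ≤ 6 / 10 ^ 12 := by
    have := q2.2
    rw [abs_le] at this ⊢
    norm_num at this ⊢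
    constructor <;> linarith [this.1, this.2]
  have q3 := step _ _ _ _ _ s2r s2i
  rw [← p3r, ← p3i] at q3
  have s3r : |(θ ^ 3).re - (-1239180255003 / 10 ^ 12)| ≤ 14 / 10 ^ 12 := by
    have := q3.1
    rw [abs_le] at this ⊢
    norm_num at this ⊢
    constructor <;> linarith [this.1, this.2]
  have s3i : |(θ ^ 3).im - (-565507409990 / 10 ^ 12)| ≤ 14 / 10 ^ 12 := by
    have := q3.2
    rw [abs_le] at this ⊢
    norm_num at this ⊢
    constructor <;> linarith [this.1, this.2]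
  have q4 := step _ _ _ _ _ s3r s3i
  rw [← p4r, ← p4i] at q4
  have s4r : |(θ ^ 4).re - (-1341816898853 / 10 ^ 12)| ≤ 40 / 10 ^ 12 := by
    have := q4.1
    rw [abs_le] at this ⊢
    norm_num at this ⊢
    constructor <;> linarith [this.1, this.2]
  have s4i : |(θ ^ 4).im - (692370693237 / 10 ^ 12)| ≤ 40 / 10 ^ 12 := by
    have := q4.2
    rw [abs_le] at this ⊢
    norm_num at this ⊢
    constructor <;> linarith [this.1, this.2]
  refine ⟨θ, heq, ?_, ?_, ?_, ?_, ?_, ?_, ?_, ?_⟩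
  · rw [abs_le] at hre ⊢
    constructor <;> linarith [hre.1, hre.2]
  · rw [abs_le] at him ⊢
    constructor <;> linarith [him.1, him.2]
  · rw [abs_le] at s2r ⊢
    constructor <;> linarith [s2r.1, s2r.2]
  · rw [abs_le] at s2i ⊢
    constructor <;> linarith [s2i.1, s2i.2]
  · rw [abs_le] at s3r ⊢
    constructor <;> linarith [s3r.1, s3r.2]
  · rw [abs_le] at s3i ⊢
    constructor <;> linarith [s3i.1, s3i.2]
  · rw [abs_le] at s4r ⊢
    constructor <;> linarith [s4r.1, s4r.2]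
  · rw [abs_le] at s4i ⊢
    constructor <;> linarith [s4i.1, s4i.2]

end Pool.Agent.H810.Tunnel
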