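import Pool.Agent.H810.Tunnel.Data

/-!
# The example: the moves, the tunnel, and the collapse
-/

set_option autoImplicit false

namespace Pool.Agent.H810.Tunnel

open Matrix

/-! ### Invariants -/

/-- The invariant of a pair. -/
theorem pair_inv {Γ : Subgroup SL2C} {p q a b : Mink} (h : Equivt Γ {p, q} {a, b})
    (hab : a ≠ b) : (p + q).det = (a + b).det := by
  obtain ⟨g, -, hg⟩ := h
  rw [Set.image_pair] at hg
  have ha : a ∈ ({act g p, act g q} : Set Mink) := by rw [hg]; simp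
  have hb : b ∈ ({act g p, act g q} : Set Mink) := by rw [hg]; simp
  simp only [Set.mem_insert_iff, Set.mem_singleton_iff] at ha hb
  have hs : act g (p + q) = a + b := by
    rw [act_add]
    rcases ha with ha | ha <;> rcases hb with hb | hb
    · exact absurd (ha.trans hb.symm) hab
    · rw [ha, hb]
    · rw [ha, hb, add_comm]
    · exact absurd (ha.trans hb.symm) hab
  rw [← hs, det_act]

/-- The invariant of a triple. -/
theorem triple_inv {Γ : Subgroup SL2C} {p q r x y z : Mink} (h : Equivt Γ {p, q, r} {x, y, z})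
    (hxy : x ≠ y) (hxz : x ≠ z) (hyz : y ≠ z) : (p + q + r).det = (x + y + z).det := by
  obtain ⟨g, -, hg⟩ := h
  rw [Set.image_insert_eq, Set.image_pair] at hg
  have hx : x ∈ ({act g p, act g q, act g r} : Set Mink) := by rw [hg]; simp
  have hy : y ∈ ({act g p, act g q, act g r} : Set Mink) := by rw [hg]; simp
  have hz : z ∈ ({act g p, act g q, act g r} : Set Mink) := by rw [hg]; simp
  simp only [Set.mem_insert_iff, Set.mem_singleton_iff] at hx hy hz
  have hs : act g (p + q + r) = x + y + z := by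
    rw [act_add, act_add]
    rcases hx with hx | hx | hx <;> rcases hy with hy | hy | hy <;> rcases hz with hz | hz | hz <;>
    first
    | exact absurd (hx.trans hy.symm) hxy
    | exact absurd (hx.trans hz.symm) hxz
    | exact absurd (hy.trans hz.symm) hyz
    | (rw [hx, hy, hz]; try abel)
  rw [← hs, det_act]

namespace Ex

variable {θ : ℂ}

/-! ### Sets of horospheres from lists of vectors -/

/-- The set of horospheres given by a list of vectors. -/
def toSet (θ : ℂ) (l : List V2) : Set Mink := {X | ∃ v ∈ l, X = horo (v.ev θ)}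

theorem toSet_nil : toSet θ [] = ∅ := by
  ext X; simp [toSet]

theorem toSet_cons (v : V2) (l : List V2) :
    toSet θ (v :: l) = insert (horo (v.ev θ)) (toSet θ l) := by
  ext X; simp [toSet]

theorem toSet_two (a b : V2) : toSet θ [a, b] = {horo (a.ev θ), horo (b.ev θ)} := by
  simp [toSet_cons, toSet_nil]

theorem toSet_three (a b c : V2) :
    toSet θ [a, b, c] = {horo (a.ev θ), horo (b.ev θ), horo (c.ev θ)} := by
  simp [toSet_cons, toSet_nil]

theorem toSet_four (a b c d : V2) :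
    toSet θ [a, b, c, d] = {horo (a.ev θ), horo (b.ev θ), horo (c.ev θ), horo (d.ev θ)} := by
  simp [toSet_cons, toSet_nil]

/-- The multiset of sets given by a list of lists. -/
def toSets (θ : ℂ) (L : List (List V2)) : Multiset (Set Mink) :=
  (L : Multiset (List V2)).map (toSet θ)

theorem toSets_cons (l : List V2) (L : List (List V2)) :
    toSets θ (l :: L) = toSet θ l ::ₘ toSets θ L := by
  simp [toSets]

theorem toSets_perm {L L' : List (List V2)} (h : L.isPerm L' = true) :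
    toSets θ L = toSets θ L' := by
  unfold toSets
  rw [Multiset.coe_eq_coe.mpr (List.isPerm_iff.mp h)]

/-! ### Words in the face pairings -/

/-- The matrix of a word. -/
def wmat : List (Fin 4 × Fin 4) → M4
  | [] => M4.one
  | x :: l => (A x.1 x.2).mul (wmat l)

/-- The isometry of a word. -/
noncomputable def wsl (h : Good θ) : List (Fin 4 × Fin 4) → SL2C
  | [] => 1
  | x :: l => pr h x.1 x.2 * wsl h l

theorem wsl_mem (h : Good θ) : ∀ w, wsl h w ∈ (S h).grp
  | [] => Subgroup.one_mem _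
  | x :: l => Subgroup.mul_mem _ (Subgroup.subset_closure ⟨x, rfl⟩) (wsl_mem h l)

theorem wsl_val (h : Good θ) : ∀ w, (wsl h w).1 = (wmat w).ev θ
  | [] => by
    show (1 : Matrix (Fin 2) (Fin 2) ℂ) = _
    rw [wmat, M4.ev_one]
  | x :: l => by
    show (A x.1 x.2).ev θ * (wsl h l).1 = _
    rw [wsl_val h l, wmat, M4.ev_mul h.eq]

theorem act_wsl (h : Good θ) (w : List (Fin 4 × Fin 4)) (u : V2) :
    act (wsl h w) (horo (u.ev θ)) = horo (((wmat w).app u).ev θ) := by
  rw [act_horo, wsl_val, M4.ev_app h.eq]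

/-- The matrix maps one list of vectors to the other one, up to signs and order. -/
def eqb (m : M4) (s t : List V2) : Bool :=
  (s.all fun u => t.any fun v => V2.same (m.app u) v) &&
    (t.all fun v => s.any fun u => V2.same (m.app u) v)

theorem image_of_eqb (h : Good θ) (w : List (Fin 4 × Fin 4)) (s t : List V2)
    (hb : eqb (wmat w) s t = true) : act (wsl h w) '' toSet θ s = toSet θ t := by
  simp only [eqb, Bool.and_eq_true, List.all_eq_true, List.any_eq_true] at hb
  ext X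
  constructor
  · rintro ⟨Y, ⟨u, hu, rfl⟩, rfl⟩
    obtain ⟨v, hv, hs⟩ := hb.1 u hu
    exact ⟨v, hv, by rw [act_wsl]; exact V2.horo_of_same hs⟩
  · rintro ⟨v, hv, rfl⟩
    obtain ⟨u, hu, hs⟩ := hb.2 v hv
    exact ⟨horo (u.ev θ), ⟨u, hu, rfl⟩, by rw [act_wsl]; exact V2.horo_of_same hs⟩

theorem equivt_of_eqb (h : Good θ) (w : List (Fin 4 × Fin 4)) (s t : List V2)
    (hb : eqb (wmat w) s t = true) : Equivt (S h).grp (toSet θ s) (toSet θ t) :=
  ⟨wsl h w, wsl_mem h w, image_of_eqb h w s t hb⟩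

/-! ### Separation -/

theorem det_pair_mem (h : Good θ) (u v : V2) : ∃ x : ℝ,
    (horo (u.ev θ) + horo (v.ev θ)).det = (x : ℂ) ∧
      (Z5.nI (V2.det u v)).Mem ((10 ^ 24 : ℝ) * x) :=
  ⟨_, det_add_horo _ _, by rw [V2.det_ev h.eq]; exact Z5.nI_mem h _⟩

/-- The interval of a triple. -/
def tI (u v w : V2) : Iv :=
  ((Z5.nI (V2.det u v)).add (Z5.nI (V2.det u w))).add (Z5.nI (V2.det v w))

theorem det_triple_mem (h : Good θ) (u v w : V2) : ∃ x : ℝ,
    (horo (u.ev θ) + horo (v.ev θ) + horo (w.ev θ)).det = (x : ℂ) ∧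
      (tI u v w).Mem ((10 ^ 24 : ℝ) * x) := by
  refine ⟨_, det_add3_horo _ _ _, ?_⟩
  rw [mul_add, mul_add, V2.det_ev h.eq, V2.det_ev h.eq, V2.det_ev h.eq]
  exact Iv.add_mem (Iv.add_mem (Z5.nI_mem h _) (Z5.nI_mem h _)) (Z5.nI_mem h _)

theorem det_ne_of_sep {X Y : Mink} {x y : ℝ} {I J : Iv} (hX : X.det = (x : ℂ))
    (hY : Y.det = (y : ℂ)) (hI : I.Mem ((10 ^ 24 : ℝ) * x)) (hJ : J.Mem ((10 ^ 24 : ℝ) * y))
    (hs : Iv.sep I J = true) : X.det ≠ Y.det := by
  rw [hX, hY]
  intro hxy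
  have : x = y := by exact_mod_cast hxy
  rw [this] at hI
  exact Iv.ne_of_sep hI hJ hs rfl

/-- Two vectors give distinct horospheres. -/
def dist (u v : V2) : Bool := decide (0 < (Z5.nI (V2.det u v)).lo)

theorem ne_of_dist (h : Good θ) {u v : V2} (hd : dist u v = true) :
    horo (u.ev θ) ≠ horo (v.ev θ) := by
  intro he
  simp only [dist, decide_eq_true_eq] at hd
  have h1 := ne_zero_of_nI h hd
  rw [← V2.det_ev h.eq] at h1
  have h2 := det_add_horo (u.ev θ) (v.ev θ)
  rw [he] at h2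
  have h3 := det_add_horo (v.ev θ) (v.ev θ)
  have h4 : det2 (v.ev θ) (v.ev θ) = 0 := by simp only [det2]; ring
  rw [h2, h4, Complex.normSq_zero] at h3
  have h5 : Complex.normSq (det2 (u.ev θ) (v.ev θ)) = 0 := by exact_mod_cast h3
  exact h1 (Complex.normSq_eq_zero.mp h5)

/-- Five vectors give distinct horospheres. -/
def dist5 (a b x y z : V2) : Bool :=
  dist a b && dist a x && dist a y && dist a z && dist b x && dist b y && dist b z && dist x y &&
    dist x z && dist y z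

theorem nodup_of_dist5 (h : Good θ) {a b x y z : V2} (hd : dist5 a b x y z = true) :
    [horo (a.ev θ), horo (b.ev θ), horo (x.ev θ), horo (y.ev θ), horo (z.ev θ)].Nodup := by
  simp only [dist5, Bool.and_eq_true] at hd
  obtain ⟨⟨⟨⟨⟨⟨⟨⟨⟨h1, h2⟩, h3⟩, h4⟩, h5⟩, h6⟩, h7⟩, h8⟩, h9⟩, h10⟩ := hd
  simp only [List.nodup_cons, List.mem_cons, List.not_mem_nil, or_false, not_or,
    not_false_eq_true, List.nodup_nil, and_true]
  exact ⟨⟨ne_of_dist h h1, ne_of_dist h h2, ne_of_dist h h3, ne_of_dist h h4⟩,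
    ⟨ne_of_dist h h5, ne_of_dist h h6, ne_of_dist h h7⟩,
    ⟨ne_of_dist h h8, ne_of_dist h h9⟩, ne_of_dist h h10⟩

/-- The pair `a, b` is not an edge. -/
def nonEdge (Q : List (List V2)) (a b : V2) : Bool :=
  Q.all fun s => s.all fun u => s.all fun v =>
    decide (u = v) || Iv.sep (Z5.nI (V2.det u v)) (Z5.nI (V2.det a b))

theorem not_isEdge (h : Good θ) {Γ : Subgroup SL2C} {Q : List (List V2)} {a b : V2}
    (hab : horo (a.ev θ) ≠ horo (b.ev θ)) (hn : nonEdge Q a b = true) :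
    ¬ IsEdge Γ (toSets θ Q) {horo (a.ev θ), horo (b.ev θ)} := by
  rintro ⟨s, hs, p, hp, q, hq, hpq, he⟩
  simp only [toSets, Multiset.mem_map, Multiset.mem_coe] at hs
  obtain ⟨l, hl, rfl⟩ := hs
  obtain ⟨u, hu, rfl⟩ := hp
  obtain ⟨v, hv, rfl⟩ := hq
  simp only [nonEdge, List.all_eq_true, Bool.or_eq_true, decide_eq_true_eq] at hn
  rcases hn l hl u hu v hv with h1 | h1
  · exact hpq (by rw [h1])
  · obtain ⟨x, hx, hx'⟩ := det_pair_mem h u v
    obtain ⟨y, hy, hy'⟩ := det_pair_mem h a b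
    exact det_ne_of_sep hx hy hx' hy' h1 (pair_inv he hab)

/-- The triple `x, y, z` is not a face. -/
def nonFace (Q : List (List V2)) (x y z : V2) : Bool :=
  Q.all fun s => s.all fun u => s.all fun v => s.all fun w =>
    decide (u = v) || decide (u = w) || decide (v = w) || Iv.sep (tI u v w) (tI x y z)

theorem not_isFace (h : Good θ) {Γ : Subgroup SL2C} {Q : List (List V2)} {x y z : V2}
    (hxy : horo (x.ev θ) ≠ horo (y.ev θ)) (hxz : horo (x.ev θ) ≠ horo (z.ev θ))
    (hyz : horo (y.ev θ) ≠ horo (z.ev θ)) (hn : nonFace Q x y z = true) :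
    ¬ IsFace Γ (toSets θ Q) {horo (x.ev θ), horo (y.ev θ), horo (z.ev θ)} := by
  rintro ⟨s, hs, p, hp, q, hq, r, hr, hpq, hpr, hqr, he⟩
  simp only [toSets, Multiset.mem_map, Multiset.mem_coe] at hs
  obtain ⟨l, hl, rfl⟩ := hs
  obtain ⟨u, hu, rfl⟩ := hp
  obtain ⟨v, hv, rfl⟩ := hq
  obtain ⟨w, hw, rfl⟩ := hr
  simp only [nonFace, List.all_eq_true, Bool.or_eq_true, decide_eq_true_eq] at hn
  rcases hn l hl u hu v hv w hw with ((h1 | h1) | h1) | h1
  · exact hpq (by rw [h1])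
  · exact hpr (by rw [h1])
  · exact hqr (by rw [h1])
  · obtain ⟨a, ha, ha'⟩ := det_triple_mem h u v w
    obtain ⟨b, hb, hb'⟩ := det_triple_mem h x y z
    exact det_ne_of_sep ha hb ha' hb' h1 (triple_inv he hxy hxz hyz)

/-! ### The moves -/

/-- The result of a 2-3 move. -/
def new3 (a b x y z : V2) (R : List (List V2)) : List (List V2) :=
  [a, b, x, y] :: [a, b, y, z] :: [a, b, z, x] :: R

/-- The result of a 3-2 move. -/
def new2 (a b x y z : V2) (R : List (List V2)) : List (List V2) :=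
  [a, x, y, z] :: [b, x, z, y] :: R

/-- The certificate of a 2-3 move. -/
def check23 (Q : List (List V2)) (a b x y z : V2) (R : List (List V2)) (t u : List V2)
    (w : List (Fin 4 × Fin 4)) : Bool :=
  Q.isPerm (t :: u :: R) && eqb (wmat []) t [a, x, y, z] && eqb (wmat w) u [b, x, y, z] &&
    dist5 a b x y z && nonEdge Q a b

/-- The certificate of a 3-2 move. -/
def check32 (Q : List (List V2)) (a b x y z : V2) (R : List (List V2)) (t u s : List V2)
    (w w' : List (Fin 4 × Fin 4)) : Bool :=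
  Q.isPerm (t :: u :: s :: R) && eqb (wmat []) t [a, b, x, y] && eqb (wmat w) u [a, b, y, z] &&
    eqb (wmat w') s [a, b, z, x] && dist5 a b x y z && nonFace Q x y z

theorem rel_refl (Γ : Subgroup SL2C) (R : Multiset (Set Mink)) : Multiset.Rel (Equivt Γ) R R :=
  Multiset.rel_refl_of_refl_on fun s _ => Equivt.refl Γ s

theorem move23_of_check (h : Good θ) {Q : List (List V2)} {a b x y z : V2}
    {R : List (List V2)} {t u : List V2} {w : List (Fin 4 × Fin 4)}
    (hc : check23 Q a b x y z R t u w = true) :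
    Move23 (S h).grp (toSets θ Q) (toSets θ (new3 a b x y z R)) := by
  simp only [check23, Bool.and_eq_true] at hc
  obtain ⟨⟨⟨⟨h1, h2⟩, h3⟩, h4⟩, h5⟩ := hc
  have hab : horo (a.ev θ) ≠ horo (b.ev θ) := by
    simp only [dist5, Bool.and_eq_true] at h4
    exact ne_of_dist h h4.1.1.1.1.1.1.1.1.1
  refine ⟨horo (a.ev θ), horo (b.ev θ), horo (x.ev θ), horo (y.ev θ), horo (z.ev θ),
    toSets θ R, nodup_of_dist5 h h4, ?_, ?_, not_isEdge h hab h5⟩
  · rw [toSets_perm h1, toSets_cons, toSets_cons, ← toSet_four, ← toSet_four]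
    exact Multiset.Rel.cons (equivt_of_eqb h _ _ _ h2)
      (Multiset.Rel.cons (equivt_of_eqb h _ _ _ h3) (rel_refl _ _))
  · rw [new3, toSets_cons, toSets_cons, toSets_cons, toSet_four, toSet_four, toSet_four]

theorem move32_of_check (h : Good θ) {Q : List (List V2)} {a b x y z : V2}
    {R : List (List V2)} {t u s : List V2} {w w' : List (Fin 4 × Fin 4)}
    (hc : check32 Q a b x y z R t u s w w' = true) :
    Move32 (S h).grp (toSets θ Q) (toSets θ (new2 a b x y z R)) := by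
  simp only [check32, Bool.and_eq_true] at hc
  obtain ⟨⟨⟨⟨⟨h1, h2⟩, h3⟩, h4⟩, h5⟩, h6⟩ := hc
  have hd := h5
  simp only [dist5, Bool.and_eq_true] at hd
  obtain ⟨⟨⟨⟨⟨⟨⟨⟨⟨-, -⟩, -⟩, -⟩, -⟩, -⟩, -⟩, hxy⟩, hxz⟩, hyz⟩ := hd
  refine ⟨horo (a.ev θ), horo (b.ev θ), horo (x.ev θ), horo (y.ev θ), horo (z.ev θ),
    toSets θ R, nodup_of_dist5 h h5, ?_, ?_,
    not_isFace h (ne_of_dist h hxy) (ne_of_dist h hxz) (ne_of_dist h hyz) h6⟩
  · rw [toSets_perm h1, toSets_cons, toSets_cons, toSets_cons, ← toSet_four, ← toSet_four,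
      ← toSet_four]
    exact Multiset.Rel.cons (equivt_of_eqb h _ _ _ h2)
      (Multiset.Rel.cons (equivt_of_eqb h _ _ _ h3)
        (Multiset.Rel.cons (equivt_of_eqb h _ _ _ h4) (rel_refl _ _)))
  · rw [new2, toSets_cons, toSets_cons, toSet_four, toSet_four]
    congr 2
    ext X
    simp only [Set.mem_insert_iff, Set.mem_singleton_iff]
    tauto

/-! ### The data -/

/-- A vector. -/
def v0 : V2 := ⟨⟨1, 0, 0, 0, 0⟩, ⟨0, 0, 0, 0, 0⟩⟩
/-- A vector. -/
def v1 : V2 := ⟨⟨0, 0, 0, 0, 0⟩, ⟨0, 1, 0, 0, 0⟩⟩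
/-- A vector. -/
def v2 : V2 := ⟨⟨0, 1, 0, -1, 1⟩, ⟨0, 1, 0, -1, 1⟩⟩
/-- A vector. -/
def v3 : V2 := ⟨⟨1, 0, -1, 1, 0⟩, ⟨1, 1, -1, 1, 0⟩⟩
/-- A vector. -/
def v4 : V2 := ⟨⟨0, 1, -1, 0, 0⟩, ⟨0, -1, 0, 1, -1⟩⟩
/-- A vector. -/
def v5 : V2 := ⟨⟨1, 0, -1, 1, 0⟩, ⟨0, 0, -1, 1, 0⟩⟩
/-- A vector. -/
def v6 : V2 := ⟨⟨0, 1, -1, 0, 0⟩, ⟨0, 0, -1, 1, 0⟩⟩
/-- A vector. -/
def v7 : V2 := ⟨⟨1, 0, -1, 1, 0⟩, ⟨0, 0, 0, 1, 0⟩⟩
/-- A vector. -/
def v8 : V2 := ⟨⟨0, 0, 1, 0, 0⟩, ⟨0, 1, 0, -1, 1⟩⟩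

/-- The tetrahedra of the triangulation `T`. -/
def Q0 : List (List V2) :=
  [[v0, v1, v2, v3],
   [v1, v0, v4, v3],
   [v1, v0, v2, v5],
   [v0, v1, v4, v6]]

/-- The tetrahedra which are not affected by the move. -/
def R1 : List (List V2) :=
  [[v0, v1, v2, v3],
   [v1, v0, v2, v5]]
/-- The tetrahedra after 1 moves. -/
def Q1 : List (List V2) := new3 v3 v6 v1 v4 v0 R1

/-- The tetrahedra which are not affected by the move. -/
def R2 : List (List V2) :=
  [[v0, v1, v2, v3],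
   [v3, v6, v0, v1],
   [v3, v6, v1, v4]]
/-- The tetrahedra after 2 moves. -/
def Q2 : List (List V2) := new3 v2 v7 v1 v0 v5 R2

/-- The tetrahedra which are not affected by the move. -/
def R3 : List (List V2) :=
  [[v3, v6, v0, v1],
   [v3, v6, v1, v4],
   [v2, v7, v0, v5],
   [v2, v7, v5, v1]]
/-- The tetrahedra after 3 moves. -/
def Q3 : List (List V2) := new3 v3 v7 v0 v2 v1 R3

/-- The tetrahedra which are not affected by the move. -/
def R4 : List (List V2) :=
  [[v2, v7, v0, v5],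
   [v2, v7, v5, v1],
   [v3, v7, v2, v1],
   [v3, v7, v0, v2]]
/-- The tetrahedra after 4 moves. -/
def Q4 : List (List V2) := new2 v0 v1 v3 v6 v7 R4

/-- The tetrahedra which are not affected by the move. -/
def R5 : List (List V2) :=
  [[v2, v7, v5, v1],
   [v3, v7, v2, v1],
   [v3, v7, v0, v2]]
/-- The tetrahedra after 5 moves. -/
def Q5 : List (List V2) := new2 v0 v5 v2 v7 v8 R5

theorem c1 : check23 Q0 v3 v6 v1 v4 v0 R1 [v1, v0, v4, v3] [v0, v1, v4, v6] [] = true := by decide +kernel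

theorem c2 : check23 Q1 v2 v7 v1 v0 v5 R2 [v1, v0, v2, v5] [v3, v6, v4, v0] [(2, 2)] = true := by decide +kernel

theorem c3 : check23 Q2 v3 v7 v0 v2 v1 R3 [v0, v1, v2, v3] [v2, v7, v1, v0] [] = true := by decide +kernel

theorem c4 : check32 Q3 v0 v1 v3 v6 v7 R4
    [v3, v6, v0, v1] [v3, v6, v1, v4]
    [v3, v7, v1, v0] [(3, 2)] [(3, 2), (3, 1)] = true := by decide +kernel

theorem c5 : check32 Q4 v0 v5 v2 v7 v8 R5
    [v2, v7, v0, v5] [v0, v3, v6, v7]
    [v1, v3, v7, v6] [(2, 2)] [(2, 2), (3, 2)] = true := by decide +kernel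

/-- The edges of the last triangulation; the first one is the tunnel. -/
def base : Fin 5 → List V2 := ![[v3, v7], [v2, v7], [v2, v1], [v2, v5], [v7, v0]]

/-- Each edge of each tetrahedron is a translate of one of the five. -/
def tab : List (V2 × V2 × List (Fin 4 × Fin 4) × Fin 5) :=
  [(v2, v7, [], 1),
   (v2, v7, [], 1),
   (v2, v7, [], 1),
   (v2, v7, [], 1),
   (v2, v7, [], 1),
   (v2, v5, [], 3),
   (v5, v1, [(2, 2), (1, 0)], 3),
   (v1, v7, [(2, 2), (1, 0), (2, 2), (1, 0)], 3),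
   (v1, v7, [(2, 2), (1, 0), (2, 2), (1, 0)], 3),
   (v0, v2, [(2, 2), (3, 2), (3, 2), (1, 0), (2, 2), (1, 0)], 3),
   (v0, v2, [(2, 2), (3, 2), (3, 2), (1, 0), (2, 2), (1, 0)], 3),
   (v3, v1, [(0, 0), (2, 2), (3, 2), (3, 2), (1, 0), (2, 2), (1, 0)], 3),
   (v8, v0, [(2, 2), (3, 2), (3, 2), (3, 1), (0, 0), (2, 2), (3, 2), (3, 2), (1, 0), (2, 2), (1, 0)], 3),
   (v2, v5, [(2, 2), (3, 2), (3, 2), (3, 2), (3, 1), (0, 0), (2, 2), (3, 2), (3, 2), (1, 0), (2, 2), (1, 0)], 3),
   (v2, v1, [], 2),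
   (v5, v7, [(2, 2), (1, 0)], 2),
   (v5, v7, [(2, 2), (1, 0)], 2),
   (v0, v3, [(2, 2), (3, 0), (1, 0)], 2),
   (v3, v2, [(0, 0), (2, 2), (3, 0), (1, 0)], 2),
   (v3, v2, [(0, 0), (2, 2), (3, 0), (1, 0)], 2),
   (v2, v1, [(0, 0), (0, 0), (2, 2), (3, 0), (1, 0)], 2),
   (v3, v7, [], 0),
   (v8, v2, [(2, 2), (3, 2), (3, 2), (3, 1)], 0),
   (v8, v2, [(2, 2), (3, 2), (3, 2), (3, 1)], 0),
   (v7, v8, [(2, 2), (3, 2), (3, 1)], 0),
   (v7, v8, [(2, 2), (3, 2), (3, 1)], 0),
   (v3, v7, [], 0),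
   (v7, v0, [], 4),
   (v7, v0, [], 4),
   (v8, v5, [(2, 2), (3, 2), (3, 1)], 4)]

/-! ### The tetrahedra of `T` -/

theorem tets_eq (h : Good θ) : (S h).tets = toSets θ Q0 := by
  have key : ∀ (j : Fin 4) (l : List V2),
      (l.all fun u => (List.finRange 4).any fun i => V2.same u (V j i)) = true →
      ((List.finRange 4).all fun i => l.any fun u => V2.same u (V j i)) = true →
      Set.range ((S h).vtx j) = toSet θ l := by
    intro j l h1 h2
    simp only [List.all_eq_true, List.any_eq_true, List.mem_finRange, true_and,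
      forall_true_left] at h1 h2
    ext X
    constructor
    · rintro ⟨i, rfl⟩
      obtain ⟨u, hu, hs⟩ := h2 i
      exact ⟨u, hu, (V2.horo_of_same hs).symm⟩
    · rintro ⟨u, hu, rfl⟩
      obtain ⟨i, hs⟩ := h1 u hu
      exact ⟨i, (V2.horo_of_same hs).symm⟩
  have hu : (Finset.univ : Finset (Fin 4)).val = ([0, 1, 2, 3] : List (Fin 4)) := by decide
  unfold Structure.tets toSets
  rw [hu]
  simp only [Multiset.map_coe, List.map_cons, List.map_nil, Q0]
  rw [key 0 [v0, v1, v2, v3] (by decide +kernel) (by decide +kernel),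
    key 1 [v1, v0, v4, v3] (by decide +kernel) (by decide +kernel),
    key 2 [v1, v0, v2, v5] (by decide +kernel) (by decide +kernel),
    key 3 [v0, v1, v4, v6] (by decide +kernel) (by decide +kernel)]

theorem isTriangulation (h : Good θ) : (S h).IsTriangulation (toSets θ Q5) := by
  unfold Structure.IsTriangulation
  rw [tets_eq]
  refine Relation.ReflTransGen.head (Or.inl (move23_of_check h c1)) ?_
  refine Relation.ReflTransGen.head (Or.inl (move23_of_check h c2)) ?_
  refine Relation.ReflTransGen.head (Or.inl (move23_of_check h c3)) ?_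
  refine Relation.ReflTransGen.head (Or.inr (move32_of_check h c4)) ?_
  refine Relation.ReflTransGen.head (Or.inr (move32_of_check h c5)) ?_
  exact Relation.ReflTransGen.refl

/-! ### The tunnel and the collapse -/

/-- The tunnel. -/
def tunnel (θ : ℂ) : Set Mink := {horo (v3.ev θ), horo (v7.ev θ)}

/-- The 2-cell dual to an edge can be removed. -/
def Rem (h : Good θ) (l : List V2) : Prop :=
  Removed (S h).grp (toSets θ Q5) (tunnel θ) (toSet θ l)

theorem rem_word (h : Good θ) {s t : List V2} (w : List (Fin 4 × Fin 4)) (hs : Rem h s)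
    (hb : eqb (wmat w) s t = true) : Rem h t := by
  unfold Rem at hs ⊢
  rw [← image_of_eqb h w s t hb]
  exact Removed.orbit _ _ (wsl_mem h w) hs

theorem rem_face (h : Good θ) {x y z : V2} (s : List V2) (hs : s ∈ Q5) (hx : x ∈ s) (hy : y ∈ s)
    (hz : z ∈ s) (hxy : dist x y = true) (hxz : dist x z = true) (hyz : dist y z = true)
    (h1 : Rem h [x, y]) (h2 : Rem h [y, z]) : Rem h [x, z] := by
  unfold Rem at h1 h2 ⊢
  rw [toSet_two] at h1 h2 ⊢
  refine Removed.collapse _ _ _ ?_ h1 h2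
  refine ⟨toSet θ s, ?_, _, ⟨x, hx, rfl⟩, _, ⟨y, hy, rfl⟩, _, ⟨z, hz, rfl⟩,
    ne_of_dist h hxy, ne_of_dist h hxz, ne_of_dist h hyz, Equivt.refl _ _⟩
  exact Multiset.mem_map_of_mem _ (Multiset.mem_coe.mpr hs)

theorem rem0 (h : Good θ) : Rem h [v3, v7] := by
  unfold Rem
  rw [toSet_two]
  exact Removed.start

theorem rem1 (h : Good θ) : Rem h [v2, v7] := by
  have h1 : Rem h [v2, v8] := rem_word h [(2, 2), (3, 2), (3, 2), (3, 1)] (rem0 h)
    (by decide +kernel)
  have h2 : Rem h [v8, v7] := rem_word h [(2, 2), (3, 2), (3, 1)] (rem0 h) (by decide +kernel)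
  exact rem_face h [v0, v2, v7, v8] (by decide +kernel) (by decide +kernel) (by decide +kernel)
    (by decide +kernel) (by decide +kernel) (by decide +kernel) (by decide +kernel) h1 h2

theorem rem1' (h : Good θ) : Rem h [v7, v2] := rem_word h [] (rem1 h) (by decide +kernel)

theorem rem2 (h : Good θ) : Rem h [v2, v1] := by
  have h1 : Rem h [v3, v2] := rem_face h [v3, v7, v2, v1] (by decide +kernel) (by decide +kernel)
    (by decide +kernel) (by decide +kernel) (by decide +kernel) (by decide +kernel)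
    (by decide +kernel) (rem0 h) (rem1' h)
  exact rem_word h [(2, 1), (3, 2), (3, 1), (0, 1)] h1 (by decide +kernel)

theorem rem3 (h : Good θ) : Rem h [v2, v5] := by
  have h1 : Rem h [v7, v1] := rem_face h [v2, v7, v5, v1] (by decide +kernel) (by decide +kernel)
    (by decide +kernel) (by decide +kernel) (by decide +kernel) (by decide +kernel)
    (by decide +kernel) (rem1' h) (rem2 h)
  exact rem_word h [(2, 1), (3, 1), (2, 1), (3, 1)] h1 (by decide +kernel)

theorem rem4 (h : Good θ) : Rem h [v7, v0] := by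
  have h1 : Rem h [v2, v0] := rem_word h [(2, 2), (3, 2), (3, 2), (1, 0), (2, 2), (1, 0)] (rem3 h)
    (by decide +kernel)
  exact rem_face h [v3, v7, v0, v2] (by decide +kernel) (by decide +kernel) (by decide +kernel)
    (by decide +kernel) (by decide +kernel) (by decide +kernel) (by decide +kernel) (rem1' h) h1

theorem rem_base (h : Good θ) (k : Fin 5) : Rem h (base k) := by
  fin_cases k
  · exact rem0 h
  · exact rem1 h
  · exact rem2 h
  · exact rem3 h
  · exact rem4 h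

theorem tab_ok : (tab.all fun x => eqb (wmat x.2.2.1) (base x.2.2.2) [x.1, x.2.1]) = true := by
  decide +kernel

theorem tab_all : (Q5.all fun s => s.all fun u => s.all fun v => decide (u = v) ||
    tab.any fun x => (decide (x.1 = u) && decide (x.2.1 = v)) ||
      (decide (x.1 = v) && decide (x.2.1 = u))) = true := by
  decide +kernel

theorem rem_all (h : Good θ) {s : List V2} (hs : s ∈ Q5) {u v : V2} (hu : u ∈ s) (hv : v ∈ s)
    (huv : u ≠ v) : Rem h [u, v] := by
  have h1 := tab_all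
  have h2 := tab_ok
  simp only [List.all_eq_true, List.any_eq_true, Bool.or_eq_true, Bool.and_eq_true,
    decide_eq_true_eq] at h1 h2
  rcases h1 s hs u hu v hv with h3 | ⟨x, hx, ⟨rfl, rfl⟩ | ⟨rfl, rfl⟩⟩
  · exact absurd h3 huv
  · exact rem_word h _ (rem_base h x.2.2.2) (h2 x hx)
  · have h4 := rem_word h _ (rem_base h x.2.2.2) (h2 x hx)
    unfold Rem at h4 ⊢
    rw [toSet_two] at h4 ⊢
    rw [Set.pair_comm]
    exact h4

theorem isTunnel (h : Good θ) : (S h).IsTunnel (tunnel θ) := by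
  refine ⟨toSets θ Q5, isTriangulation h, ?_, ?_⟩
  · refine ⟨toSet θ [v3, v7, v2, v1], ?_, _, ⟨v3, by decide +kernel, rfl⟩, _,
      ⟨v7, by decide +kernel, rfl⟩, ne_of_dist h (by decide +kernel), Equivt.refl _ _⟩
    exact Multiset.mem_map_of_mem _ (Multiset.mem_coe.mpr (by decide +kernel))
  · rintro e ⟨s, hs, p, hp, q, hq, hpq, g, hg, rfl⟩
    simp only [toSets, Multiset.mem_map, Multiset.mem_coe] at hs
    obtain ⟨l, hl, rfl⟩ := hs
    obtain ⟨u, hu, rfl⟩ := hp
    obtain ⟨v, hv, rfl⟩ := hq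
    refine Removed.orbit _ _ hg ?_
    have h1 := rem_all h hl hu hv (by rintro rfl; exact hpq rfl)
    unfold Rem at h1
    rw [toSet_two] at h1
    exact h1

/-! ### The tunnel is not homotopic to an edge or a dual arc -/

theorem tau_ne (h : Good θ) : horo (v3.ev θ) ≠ horo (v7.ev θ) := ne_of_dist h (by decide +kernel)

theorem edges_sep : ∀ j v w : Fin 4, v ≠ w →
    Iv.sep (Z5.nI (V2.det (V j v) (V j w))) (Z5.nI (V2.det v3 v7)) = true := by decide +kernel

theorem duals_sep : ∀ j a : Fin 4,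
    Iv.sep (Z5.nI (V2.det (V j a) (O j a))) (Z5.nI (V2.det v3 v7)) = true := by decide +kernel

theorem opp_eq (h : Good θ) (j a : Fin 4) : (S h).opp j a = horo ((O j a).ev θ) := by
  show act (pr h j a) (horo ((V (nb j a) (gl j a a)).ev θ)) = _
  rw [act_horo]
  show horo ((A j a).ev θ *ᵥ (V (nb j a) (gl j a a)).ev θ) = _
  rw [← M4.ev_app h.eq]
  rfl

theorem not_edge (h : Good θ) : ¬ (S h).HomotopicToEdge (tunnel θ) := by
  rintro ⟨j, v, w, hvw, he⟩
  obtain ⟨x, hx, hx'⟩ := det_pair_mem h (V j v) (V j w)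
  obtain ⟨y, hy, hy'⟩ := det_pair_mem h v3 v7
  exact det_ne_of_sep hx hy hx' hy' (edges_sep j v w hvw) (pair_inv he (tau_ne h))

theorem not_dual (h : Good θ) : ¬ (S h).HomotopicToDual (tunnel θ) := by
  rintro ⟨j, a, he⟩
  rw [opp_eq] at he
  obtain ⟨x, hx, hx'⟩ := det_pair_mem h (V j a) (O j a)
  obtain ⟨y, hy, hy'⟩ := det_pair_mem h v3 v7
  exact det_ne_of_sep hx hy hx' hy' (duals_sep j a) (pair_inv he (tau_ne h))

theorem main : ∃ (N : ℕ) (T : IdealTriangulation N) (S : Structure T), S.IsCanonical ∧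
    ∃ t : Set Mink, S.IsTunnel t ∧ ¬ S.HomotopicToEdge t ∧ ¬ S.HomotopicToDual t := by
  obtain ⟨θ, h⟩ := exists_good
  exact ⟨4, T, S h, canonical h, tunnel θ, isTunnel h, not_edge h, not_dual h⟩

end Ex

end Pool.Agent.H810.Tunnel
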