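import Pool.Agent.H810.Tunnel.Tilt
import Pool.Agent.H810.Tunnel.Angle

/-!
# The example: an ideal triangulation with four tetrahedra
-/

set_option autoImplicit false

namespace Pool.Agent.H810.Tunnel

open Matrix

namespace Ex

/-- The vectors of the ideal vertices. -/
def V : Fin 4 → Fin 4 → V2 :=
  ![![⟨⟨1, 0, 0, 0, 0⟩, ⟨0, 0, 0, 0, 0⟩⟩,
      ⟨⟨0, 0, 0, 0, 0⟩, ⟨0, 1, 0, 0, 0⟩⟩,
      ⟨⟨0, -1, 0, 1, -1⟩, ⟨0, -1, 0, 1, -1⟩⟩,
      ⟨⟨-1, 0, 1, -1, 0⟩, ⟨-1, -1, 1, -1, 0⟩⟩],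
    ![⟨⟨0, 0, 0, 0, 0⟩, ⟨0, 1, 0, 0, 0⟩⟩,
      ⟨⟨1, 0, 0, 0, 0⟩, ⟨0, 0, 0, 0, 0⟩⟩,
      ⟨⟨0, 1, -1, 0, 0⟩, ⟨0, -1, 0, 1, -1⟩⟩,
      ⟨⟨-1, 0, 1, -1, 0⟩, ⟨-1, -1, 1, -1, 0⟩⟩],
    ![⟨⟨0, 0, 0, 0, 0⟩, ⟨0, -1, 0, 0, 0⟩⟩,
      ⟨⟨1, 0, 0, 0, 0⟩, ⟨0, 0, 0, 0, 0⟩⟩,
      ⟨⟨0, 1, 0, -1, 1⟩, ⟨0, 1, 0, -1, 1⟩⟩,
      ⟨⟨1, 0, -1, 1, 0⟩, ⟨0, 0, -1, 1, 0⟩⟩],
    ![⟨⟨1, 0, 0, 0, 0⟩, ⟨0, 0, 0, 0, 0⟩⟩,
      ⟨⟨0, 0, 0, 0, 0⟩, ⟨0, 1, 0, 0, 0⟩⟩,
      ⟨⟨0, 1, -1, 0, 0⟩, ⟨0, -1, 0, 1, -1⟩⟩,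
      ⟨⟨0, -1, 1, 0, 0⟩, ⟨0, 0, 1, -1, 0⟩⟩]]

/-- The face pairings. -/
def A : Fin 4 → Fin 4 → M4 :=
  ![![⟨⟨1, 0, -1, 1, 0⟩, ⟨-1, 0, 1, -1, 0⟩, ⟨1, 1, -1, 1, 0⟩, ⟨0, -2, 2, 0, -1⟩⟩,
      ⟨⟨0, -2, 2, 0, -1⟩, ⟨1, 0, -1, 1, 0⟩, ⟨-1, -1, 1, -1, 0⟩, ⟨1, 0, -1, 1, 0⟩⟩,
      ⟨⟨1, 0, 0, 0, 0⟩, ⟨0, 0, 0, 0, 0⟩, ⟨0, 0, 0, 0, 0⟩, ⟨1, 0, 0, 0, 0⟩⟩,
      ⟨⟨1, 0, 0, 0, 0⟩, ⟨0, 0, 0, 0, 0⟩, ⟨0, 0, 0, 0, 0⟩, ⟨1, 0, 0, 0, 0⟩⟩],
    ![⟨⟨-1, 2, 0, -1, 0⟩, ⟨-1, 1, 0, -1, 1⟩, ⟨0, -1, 0, 1, -1⟩, ⟨0, 1, 0, -1, 1⟩⟩,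
      ⟨⟨0, 1, -1, 0, 0⟩, ⟨-1, 1, 0, -1, 1⟩, ⟨0, -1, 0, 1, -1⟩, ⟨0, 2, 0, -1, 1⟩⟩,
      ⟨⟨1, 0, 0, 0, 0⟩, ⟨0, 0, 0, 0, 0⟩, ⟨0, 0, 0, 0, 0⟩, ⟨1, 0, 0, 0, 0⟩⟩,
      ⟨⟨1, 0, 0, 0, 0⟩, ⟨0, 0, 0, 0, 0⟩, ⟨0, 0, 0, 0, 0⟩, ⟨1, 0, 0, 0, 0⟩⟩],
    ![⟨⟨0, 2, 0, -1, 1⟩, ⟨1, -1, 0, 1, -1⟩, ⟨0, 1, 0, -1, 1⟩, ⟨0, 1, -1, 0, 0⟩⟩,
      ⟨⟨0, 1, 0, -1, 1⟩, ⟨1, -1, 0, 1, -1⟩, ⟨0, 1, 0, -1, 1⟩, ⟨-1, 2, 0, -1, 0⟩⟩,
      ⟨⟨1, 0, -1, 1, 0⟩, ⟨1, -1, 0, 0, 0⟩, ⟨0, 0, -1, 1, 0⟩, ⟨0, -1, 1, 0, 0⟩⟩,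
      ⟨⟨1, 0, 0, 0, 0⟩, ⟨0, 0, 0, 0, 0⟩, ⟨0, 0, 0, 0, 0⟩, ⟨1, 0, 0, 0, 0⟩⟩],
    ![⟨⟨0, -1, 1, 0, 0⟩, ⟨-1, 1, 0, 0, 0⟩, ⟨0, 0, 1, -1, 0⟩, ⟨1, 0, -1, 1, 0⟩⟩,
      ⟨⟨0, -1, 1, 0, 0⟩, ⟨-1, 1, 0, 0, 0⟩, ⟨0, 0, 1, -1, 0⟩, ⟨1, 0, -1, 1, 0⟩⟩,
      ⟨⟨1, 0, -1, 1, 0⟩, ⟨1, -1, 0, 0, 0⟩, ⟨0, 0, -1, 1, 0⟩, ⟨0, -1, 1, 0, 0⟩⟩,
      ⟨⟨1, 0, 0, 0, 0⟩, ⟨0, 0, 0, 0, 0⟩, ⟨0, 0, 0, 0, 0⟩, ⟨1, 0, 0, 0, 0⟩⟩]]

/-- The neighbours. -/
def nb : Fin 4 → Fin 4 → Fin 4 := ![![0, 0, 1, 2], ![2, 2, 0, 3], ![1, 1, 3, 0], ![3, 2, 3, 1]]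

/-- The permutation `1 0 2 3`. -/
def p1023 : Equiv.Perm (Fin 4) :=
  ⟨![1, 0, 2, 3], ![1, 0, 2, 3], by decide, by decide⟩
/-- The permutation `1 2 3 0`. -/
def p1230 : Equiv.Perm (Fin 4) :=
  ⟨![1, 2, 3, 0], ![3, 0, 1, 2], by decide, by decide⟩
/-- The permutation `2 3 1 0`. -/
def p2310 : Equiv.Perm (Fin 4) :=
  ⟨![2, 3, 1, 0], ![3, 2, 0, 1], by decide, by decide⟩
/-- The permutation `3 0 1 2`. -/
def p3012 : Equiv.Perm (Fin 4) :=
  ⟨![3, 0, 1, 2], ![1, 2, 3, 0], by decide, by decide⟩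
/-- The permutation `3 2 0 1`. -/
def p3201 : Equiv.Perm (Fin 4) :=
  ⟨![3, 2, 0, 1], ![2, 3, 1, 0], by decide, by decide⟩

/-- The gluing maps. -/
def gl : Fin 4 → Fin 4 → Equiv.Perm (Fin 4) := ![![p1230, p3012, p1023, p1023], ![p1230, p3012, p1023, p1023], ![p1230, p3012, p2310, p1023], ![p2310, p3201, p3201, p1023]]

/-- The numbers of the edges. -/
def ed : Fin 4 → Fin 4 → Fin 4 → Fin 4 :=
  ![![![0, 0, 1, 2], ![0, 0, 2, 1], ![1, 2, 0, 2], ![2, 1, 2, 0]],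
    ![![0, 0, 3, 1], ![0, 0, 1, 2], ![3, 1, 0, 1], ![1, 2, 1, 0]],
    ![![0, 0, 2, 1], ![0, 0, 1, 3], ![2, 1, 0, 1], ![1, 3, 1, 0]],
    ![![0, 0, 1, 3], ![0, 0, 3, 3], ![1, 3, 0, 0], ![3, 3, 0, 0]]]

/-- Paths of moves from the edges of the tetrahedra to the chosen representatives: `a < 4` is
crossing the face opposite to `a`, and `4` is the change of direction. -/
def ecode : Fin 4 → Fin 4 → Fin 4 → List (Fin 5) :=
  ![![![[], [], [], []],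
      ![[4], [], [0, 0, 4], [0, 4]],
      ![[4], [0, 0], [], [0, 4]],
      ![[4], [0], [0], []]],
    ![![[], [2, 4], [], [2, 0, 4]],
      ![[2], [], [0, 0, 2, 0], [2]],
      ![[4], [0, 0, 2, 0, 4], [], [1, 3]],
      ![[2, 0], [2, 4], [1, 3, 4], []]],
    ![![[], [3, 4], [1, 2, 4], [1, 1, 3, 4]],
      ![[3], [], [3], [0, 4]],
      ![[1, 2], [3, 4], [], [0, 2, 0]],
      ![[1, 1, 3], [0], [0, 2, 0, 4], []]],
    ![![[], [3, 2], [1, 1, 1, 3], [1, 0]],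
      ![[3, 2, 4], [], [3], [2, 3, 4]],
      ![[1, 1, 1, 3, 4], [3, 4], [], [1, 3, 4]],
      ![[1, 0, 4], [2, 3], [1, 3], []]]]

/-- The representatives of the edges. -/
def erep : Fin 4 → Fin 4 × Fin 4 × Fin 4 := ![(0, 0, 1), (0, 0, 2), (0, 0, 3), (1, 0, 2)]

/-- Paths of moves from the ideal vertices of the tetrahedra to the vertex `0` of the
tetrahedron `0`. -/
def vcode : Fin 4 → Fin 4 → List (Fin 4) :=
  ![![[], [0, 0, 0], [0, 0], [0]],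
    ![[2, 0, 0, 0], [2], [1, 3], [2, 0]],
    ![[1, 2, 0], [3], [1, 2], [2, 3, 2]],
    ![[3, 2], [0, 1, 3], [3, 1, 3], [1, 3]]]

/-- The shape parameters. -/
def PZ : Fin 4 → Fin 3 → Z5 :=
  ![![⟨3, -3, 0, 2, -1⟩, ⟨0, 1, 0, -1, 1⟩, ⟨1, 0, -1, 0, 0⟩],
    ![⟨0, 1, -1, -1, 1⟩, ⟨1, 0, -1, 1, 0⟩, ⟨2, -2, 0, 1, -1⟩],
    ![⟨0, 1, -1, -1, 1⟩, ⟨1, 0, -1, 1, 0⟩, ⟨2, -2, 0, 1, -1⟩],
    ![⟨-1, 0, 0, -1, 0⟩, ⟨0, 0, 1, -2, 1⟩, ⟨2, -1, -1, 1, 0⟩]]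

/-! ### The combinatorics -/

/-- The gluing. -/
def G : Gluing 4 where
  adj := nb
  glue := gl
  adj_adj := by decide
  glue_glue := by decide
  odd := by decide
  ne_self := by decide

/-- A move on the edges of the tetrahedra. -/
def emove (c : Fin 5) (x : Fin 4 × Fin 4 × Fin 4) : Option (Fin 4 × Fin 4 × Fin 4) :=
  if h : c.val < 4 then
    if x.2.1 ≠ ⟨c.val, h⟩ ∧ x.2.2 ≠ ⟨c.val, h⟩ then
      some (nb x.1 ⟨c.val, h⟩, gl x.1 ⟨c.val, h⟩ x.2.1, gl x.1 ⟨c.val, h⟩ x.2.2)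
    else none
  else some (x.1, x.2.2, x.2.1)

/-- A path of moves. -/
def erun : List (Fin 5) → Fin 4 × Fin 4 × Fin 4 → Option (Fin 4 × Fin 4 × Fin 4)
  | [], x => some x
  | c :: l, x => match emove c x with
    | none => none
    | some y => erun l y

theorem emove_spec {c : Fin 5} {x y : Fin 4 × Fin 4 × Fin 4} (h : emove c x = some y) :
    G.EdgeStep x y := by
  obtain ⟨j, v, w⟩ := x
  unfold emove at h
  split_ifs at h with h1 h2
  · simp only [Option.some.injEq] at h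
    rw [← h]
    exact Gluing.EdgeStep.cross j _ v w h2.1 h2.2
  · simp only [Option.some.injEq] at h
    rw [← h]
    exact Gluing.EdgeStep.flip j v w

theorem erun_spec : ∀ (l : List (Fin 5)) (x y : Fin 4 × Fin 4 × Fin 4), erun l x = some y →
    Relation.EqvGen G.EdgeStep x y
  | [], x, y, h => by
    simp only [erun, Option.some.injEq] at h
    rw [h]; exact Relation.EqvGen.refl _
  | c :: l, x, y, h => by
    simp only [erun] at h
    cases hm : emove c x with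
    | none => rw [hm] at h; simp at h
    | some z =>
      rw [hm] at h
      exact Relation.EqvGen.trans _ _ _ (Relation.EqvGen.rel _ _ (emove_spec hm))
        (erun_spec l z y h)

theorem ecode_ok : ∀ j v w : Fin 4, v ≠ w → erun (ecode j v w) (j, v, w) = some (erep (ed j v w)) := by
  decide +kernel

theorem ed_flip : ∀ j v w : Fin 4, ed j v w = ed j w v := by decide +kernel

theorem ed_cross : ∀ j a v w : Fin 4, v ≠ a → w ≠ a →
    ed j v w = ed (nb j a) (gl j a v) (gl j a w) := by decide +kernel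

theorem ed_step {x y : Fin 4 × Fin 4 × Fin 4} (h : G.EdgeStep x y) :
    ed x.1 x.2.1 x.2.2 = ed y.1 y.2.1 y.2.2 := by
  cases h with
  | flip j v w => exact ed_flip j v w
  | cross j a v w hv hw => exact ed_cross j a v w hv hw

theorem ed_eqv {x y : Fin 4 × Fin 4 × Fin 4} (h : Relation.EqvGen G.EdgeStep x y) :
    ed x.1 x.2.1 x.2.2 = ed y.1 y.2.1 y.2.2 := by
  induction h with
  | rel x y h => exact ed_step h
  | refl x => rfl
  | symm x y _ ih => exact ih.symm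
  | trans x y z _ _ ih1 ih2 => exact ih1.trans ih2

/-- A move on the ideal vertices of the tetrahedra. -/
def vmove (a : Fin 4) (x : Fin 4 × Fin 4) : Option (Fin 4 × Fin 4) :=
  if x.2 ≠ a then some (nb x.1 a, gl x.1 a x.2) else none

/-- A path of moves. -/
def vrun : List (Fin 4) → Fin 4 × Fin 4 → Option (Fin 4 × Fin 4)
  | [], x => some x
  | c :: l, x => match vmove c x with
    | none => none
    | some y => vrun l y

theorem vmove_spec {a : Fin 4} {x y : Fin 4 × Fin 4} (h : vmove a x = some y) :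
    G.VertexStep x y := by
  obtain ⟨j, v⟩ := x
  unfold vmove at h
  split_ifs at h with h1
  simp only [Option.some.injEq] at h
  rw [← h]
  exact Gluing.VertexStep.cross j a v h1

theorem vrun_spec : ∀ (l : List (Fin 4)) (x y : Fin 4 × Fin 4), vrun l x = some y →
    Relation.EqvGen G.VertexStep x y
  | [], x, y, h => by
    simp only [vrun, Option.some.injEq] at h
    rw [h]; exact Relation.EqvGen.refl _
  | c :: l, x, y, h => by
    simp only [vrun] at h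
    cases hm : vmove c x with
    | none => rw [hm] at h; simp at h
    | some z =>
      rw [hm] at h
      exact Relation.EqvGen.trans _ _ _ (Relation.EqvGen.rel _ _ (vmove_spec hm))
        (vrun_spec l z y h)

theorem vcode_ok : ∀ j v : Fin 4, vrun (vcode j v) (j, v) = some (0, 0) := by
  decide +kernel

/-- The ideal triangulation. -/
def T : IdealTriangulation 4 where
  toGluing := G
  edge := ed
  edge_eq_iff := by
    intro j v w k x y hvw hxy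
    constructor
    · intro h
      have h1 := erun_spec _ _ _ (ecode_ok j v w hvw)
      have h2 := erun_spec _ _ _ (ecode_ok k x y hxy)
      rw [h] at h1
      exact Relation.EqvGen.trans _ _ _ h1 (Relation.EqvGen.symm _ _ h2)
    · intro h
      exact ed_eqv h
  edge_surj := by decide +kernel
  one_cusp := by
    intro p q
    have h1 := vrun_spec _ _ _ (vcode_ok p.1 p.2)
    have h2 := vrun_spec _ _ _ (vcode_ok q.1 q.2)
    exact Relation.EqvGen.trans _ _ _ h1 (Relation.EqvGen.symm _ _ h2)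

/-! ### The hyperbolic structure -/

theorem A_det : ∀ j a, (A j a).det = Z5.one := by decide +kernel

theorem A_match : ∀ j a v, v ≠ a →
    V2.same ((A j a).app (V (nb j a) (gl j a v))) (V j v) = true := by decide +kernel

/-- The shapes, cross-multiplied. -/
theorem shape_ok : ∀ j, (V2.det (V j 1) (V j 3)).mul (V2.det (V j 0) (V j 2)) =
    (PZ j 0).mul ((V2.det (V j 1) (V j 2)).mul (V2.det (V j 0) (V j 3))) := by decide +kernel

theorem par1_ok : ∀ j, (PZ j 1).mul (Z5.one.sub (PZ j 0)) = Z5.one := by decide +kernel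

theorem par2_ok : ∀ j, (PZ j 2).mul (PZ j 0) = (PZ j 0).sub Z5.one := by decide +kernel

theorem im_ok : ∀ j, 0 < (Z5.imI (PZ j 0)).lo := by decide +kernel

theorem det_ne : ∀ j, 0 < (Z5.nI ((V2.det (V j 1) (V j 2)).mul (V2.det (V j 0) (V j 3)))).lo := by
  decide +kernel

/-- The product of a family. -/
def prodZ (f : Fin 4 → Fin 4 → Fin 4 → Z5) : Z5 :=
  (List.finRange 4).foldr (fun j acc => ((List.finRange 4).foldr (fun v acc =>
    ((List.finRange 4).foldr (fun w acc => (f j v w).mul acc) Z5.one).mul acc) Z5.one).mul acc)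
    Z5.one

theorem prod_ok : ∀ e, prodZ (fun j v w =>
    if v < w ∧ ed j v w = e then PZ j (kind v w) else Z5.one) = Z5.one := by decide +kernel

variable {θ : ℂ}

theorem ne_zero_of_nI (h : Good θ) {z : Z5} (hz : 0 < (Z5.nI z).lo) : Z5.ev θ z ≠ 0 := by
  intro h0
  have := (Z5.nI_mem h z).1
  rw [h0, Complex.normSq_zero, mul_zero] at this
  have h1 : (0 : ℝ) < (Z5.nI z).lo := by exact_mod_cast hz
  linarith

theorem ev_prodZ (h : Good θ) (f : Fin 4 → Fin 4 → Fin 4 → Z5) :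
    Z5.ev θ (prodZ f) = ∏ j, ∏ v, ∏ w, Z5.ev θ (f j v w) := by
  have hl : (List.finRange 4) = [0, 1, 2, 3] := by decide
  simp only [prodZ, hl, List.foldr, Z5.ev_mul h.eq, Z5.ev_one, mul_one, Fin.prod_univ_four]
  ring

theorem shape_V (h : Good θ) (j : Fin 4) :
    shape (fun v => (V j v).ev θ) = Z5.ev θ (PZ j 0) := by
  unfold shape
  rw [V2.det_ev h.eq, V2.det_ev h.eq, V2.det_ev h.eq, V2.det_ev h.eq, ← Z5.ev_mul h.eq,
    ← Z5.ev_mul h.eq, shape_ok, Z5.ev_mul h.eq, mul_div_assoc, div_self, mul_one]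
  exact ne_zero_of_nI h (det_ne j)

theorem par_V (h : Good θ) (j : Fin 4) (k : Fin 3) :
    par (Z5.ev θ (PZ j 0)) k = Z5.ev θ (PZ j k) := by
  have him : 0 < (Z5.ev θ (PZ j 0)).im := by
    have h1 := (Z5.imI_mem h (PZ j 0)).1
    have h2 : (0 : ℝ) < (Z5.imI (PZ j 0)).lo := by exact_mod_cast im_ok j
    have h3 : (0 : ℝ) < (10 ^ 12 : ℝ) * (Z5.ev θ (PZ j 0)).im := lt_of_lt_of_le h2 h1
    exact pos_of_mul_pos_right h3 (by norm_num)
  have hz0 : Z5.ev θ (PZ j 0) ≠ 0 := by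
    intro h0; rw [h0] at him; simp at him
  have hz1 : 1 - Z5.ev θ (PZ j 0) ≠ 0 := by
    intro h0
    have : Z5.ev θ (PZ j 0) = 1 := by linear_combination -h0
    rw [this] at him; simp at him
  fin_cases k
  · simp [par]
  · have h1 := congrArg (Z5.ev θ) (par1_ok j)
    rw [Z5.ev_mul h.eq, Z5.ev_sub, Z5.ev_one] at h1
    simp only [par, Fin.mk_one, Matrix.cons_val_one, Matrix.cons_val_zero]
    rw [div_eq_iff hz1]
    exact h1.symm
  · have h1 := congrArg (Z5.ev θ) (par2_ok j)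
    rw [Z5.ev_mul h.eq, Z5.ev_sub, Z5.ev_one] at h1
    simp only [par, Fin.reduceFinMk, Matrix.cons_val]
    field_simp
    linear_combination -h1

/-- The face pairings as elements of `SL₂(ℂ)`. -/
noncomputable def pr (h : Good θ) (j a : Fin 4) : SL2C :=
  ⟨(A j a).ev θ, by rw [M4.ev_det h.eq, A_det, Z5.ev_one]⟩

/-- The hyperbolic structure. -/
noncomputable def S (h : Good θ) : Structure T where
  vec := fun j v => (V j v).ev θ
  pair := pr h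
  im_pos := by
    intro j
    rw [shape_V h]
    have h1 := (Z5.imI_mem h (PZ j 0)).1
    have h2 : (0 : ℝ) < (Z5.imI (PZ j 0)).lo := by exact_mod_cast im_ok j
    have h3 : (0 : ℝ) < (10 ^ 12 : ℝ) * (Z5.ev θ (PZ j 0)).im := lt_of_lt_of_le h2 h1
    exact pos_of_mul_pos_right h3 (by norm_num)
  pair_horo := by
    intro j a v hv
    rw [act_horo]
    show horo ((A j a).ev θ *ᵥ (V (nb j a) (gl j a v)).ev θ) = horo ((V j v).ev θ)
    rw [← M4.ev_app h.eq]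
    exact V2.horo_of_same (A_match j a v hv)
  edge_angle := by
    intro e
    refine angle_sum T (fun j => shape fun v => (V j v).ev θ) ?_ ?_ e
    · intro j
      rw [shape_V h]
      have h1 := (Z5.imI_mem h (PZ j 0)).1
      have h2 : (0 : ℝ) < (Z5.imI (PZ j 0)).lo := by exact_mod_cast im_ok j
      have h3 : (0 : ℝ) < (10 ^ 12 : ℝ) * (Z5.ev θ (PZ j 0)).im := lt_of_lt_of_le h2 h1
      exact pos_of_mul_pos_right h3 (by norm_num)
    · intro e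
      have h1 := congrArg (Z5.ev θ) (prod_ok e)
      rw [ev_prodZ h, Z5.ev_one] at h1
      refine Eq.trans ?_ h1
      refine Finset.prod_congr rfl fun j _ => Finset.prod_congr rfl fun v _ =>
        Finset.prod_congr rfl fun w _ => ?_
      rw [shape_V h, par_V h]
      show (if v < w ∧ ed j v w = e then _ else _) = _
      split_ifs
      · rfl
      · exact Z5.ev_one.symm
  laid_out := by
    have one : ∀ j a : Fin 4, A j a = M4.one → pr h j a = 1 := by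
      intro j a hA
      apply Subtype.ext
      show (A j a).ev θ = 1
      rw [hA, M4.ev_one]
    have st : ∀ j a k : Fin 4, nb j a = k → A j a = M4.one →
        Relation.ReflTransGen (fun j k => ∃ a, T.adj j a = k ∧ pr h j a = 1) j k := by
      intro j a k hk hA
      exact Relation.ReflTransGen.single ⟨a, hk, one j a hA⟩
    have s01 := st 0 2 1 (by decide) (by decide +kernel)
    have s02 := st 0 3 2 (by decide) (by decide +kernel)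
    have s10 := st 1 2 0 (by decide) (by decide +kernel)
    have s13 := st 1 3 3 (by decide) (by decide +kernel)
    have s20 := st 2 3 0 (by decide) (by decide +kernel)
    have s31 := st 3 3 1 (by decide) (by decide +kernel)
    have to0 : ∀ j : Fin 4,
        Relation.ReflTransGen (fun j k => ∃ a, T.adj j a = k ∧ pr h j a = 1) j 0 := by
      intro j
      fin_cases j
      · exact Relation.ReflTransGen.refl
      · exact s10
      · exact s20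
      · exact s31.trans s10
    have from0 : ∀ j : Fin 4,
        Relation.ReflTransGen (fun j k => ∃ a, T.adj j a = k ∧ pr h j a = 1) 0 j := by
      intro j
      fin_cases j
      · exact Relation.ReflTransGen.refl
      · exact s01
      · exact s02
      · exact s01.trans s13
    intro j k
    exact (to0 j).trans (from0 k)

/-! ### The triangulation is canonical -/

/-- The interval of a pair of vertices. -/
def LI (j v w : Fin 4) : Iv := Z5.nI (V2.det (V j v) (V j w))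

/-- The opposite vertex across the face `a`. -/
def O (j a : Fin 4) : V2 := (A j a).app (V (nb j a) (gl j a a))

/-- The interval of a vertex and the opposite vertex. -/
def XI (j a v : Fin 4) : Iv := Z5.nI (V2.det (V j v) (O j a))

theorem D_ok : ∀ j, (DD Iv.mul Iv.sub Iv.add (LI j 0 1) (LI j 0 2) (LI j 0 3) (LI j 1 2)
    (LI j 1 3) (LI j 2 3)).hi < 0 := by decide +kernel

theorem gap_ok : ∀ j a, 0 < (gap Iv.mul Iv.sub Iv.add (LI j 0 1) (LI j 0 2) (LI j 0 3) (LI j 1 2)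
    (LI j 1 3) (LI j 2 3) (XI j a 0) (XI j a 1) (XI j a 2) (XI j a 3)).lo := by decide +kernel

theorem pos_of_scale {x : ℝ} (h : 0 < (10 ^ 24 : ℝ) ^ 4 * x) : 0 < x :=
  pos_of_mul_pos_right h (by positivity)

theorem canonical (h : Good θ) : (S h).IsCanonical := by
  intro j
  have hm : ∀ v w, (LI j v w).Mem
      ((10 ^ 24 : ℝ) * Complex.normSq (det2 ((V j v).ev θ) ((V j w).ev θ))) := by
    intro v w
    rw [V2.det_ev h.eq]
    exact Z5.nI_mem h _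
  have hD := DD_mem (hm 0 1) (hm 0 2) (hm 0 3) (hm 1 2) (hm 1 3) (hm 2 3)
  rw [DR_scale] at hD
  obtain ⟨H, h1, h2, h3⟩ := exists_plane (fun v => (V j v).ev θ) (by
    have h4 := hD.2
    have h5 : ((DD Iv.mul Iv.sub Iv.add (LI j 0 1) (LI j 0 2) (LI j 0 3) (LI j 1 2)
      (LI j 1 3) (LI j 2 3)).hi : ℝ) < 0 := by exact_mod_cast D_ok j
    have h6 := lt_of_le_of_lt h4 h5
    by_contra hcon
    have hcon := not_lt.mp hcon
    have := mul_nonneg (by positivity : (0 : ℝ) ≤ (10 ^ 24 : ℝ) ^ 4) hcon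
    linarith)
  refine ⟨H, h1, h2, ?_⟩
  intro a
  have ho : (S h).opp j a = horo ((O j a).ev θ) := by
    show act (pr h j a) (horo ((V (nb j a) (gl j a a)).ev θ)) = _
    rw [act_horo]
    show horo ((A j a).ev θ *ᵥ (V (nb j a) (gl j a a)).ev θ) = _
    rw [← M4.ev_app h.eq]
    rfl
  rw [ho]
  apply h3
  have hx : ∀ v, (XI j a v).Mem
      ((10 ^ 24 : ℝ) * Complex.normSq (det2 ((V j v).ev θ) ((O j a).ev θ))) := by
    intro v
    rw [V2.det_ev h.eq]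
    exact Z5.nI_mem h _
  have hg := gap_mem (hm 0 1) (hm 0 2) (hm 0 3) (hm 1 2) (hm 1 3) (hm 2 3)
    (hx 0) (hx 1) (hx 2) (hx 3)
  rw [gapR_scale] at hg
  have h5 : (0 : ℝ) < (gap Iv.mul Iv.sub Iv.add (LI j 0 1) (LI j 0 2) (LI j 0 3) (LI j 1 2)
    (LI j 1 3) (LI j 2 3) (XI j a 0) (XI j a 1) (XI j a 2) (XI j a 3)).lo := by
    exact_mod_cast gap_ok j a
  exact pos_of_scale (lt_of_lt_of_le h5 hg.1)

end Ex

end Pool.Agent.H810.Tunnel
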