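import Mathlib

/-!
# Unknotting tunnels and the canonical triangulation: definitions

One-cusped orientable hyperbolic 3-manifolds given by geometric ideal triangulations, their
canonical (Epstein-Penner) triangulations, proper arcs, bistellar moves and unknotting tunnels.

Conventions. The Minkowski space of signature `(1, 3)` is the space of Hermitian `2 × 2` matrices
with the determinant as quadratic form; hyperbolic space is `{X | det X = 1, tr X > 0}`, and
`g ∈ SL₂(ℂ)` acts by `X ↦ g X gᴴ`. The points of the positive light cone are the matrices `u uᴴ`
with `u ∈ ℂ² ∖ 0`; such a point stands for a horosphere whose centre is the ideal point `[u]` of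
the sphere at infinity `ℂP¹`.
-/

set_option autoImplicit false

namespace Pool.Agent.H810.Tunnel

open Matrix

/-- `SL₂(ℂ)`, the group of orientation preserving isometries of hyperbolic 3-space (up to
sign). -/
abbrev SL2C : Type := Matrix.SpecialLinearGroup (Fin 2) ℂ

/-- `2 × 2` complex matrices; the Hermitian ones form Minkowski space. -/
abbrev Mink : Type := Matrix (Fin 2) (Fin 2) ℂ

/-- The point `u uᴴ` of the light cone: the horosphere given by the vector `u`, centred at the
ideal point `[u]`. -/
def horo (u : Fin 2 → ℂ) : Mink := vecMulVec u (star u)

/-- The action of an isometry on Minkowski space, and so on horospheres. -/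
def act (g : SL2C) (X : Mink) : Mink := g.1 * X * (g.1)ᴴ

/-! ### Ideal triangulations -/

/-- `N` oriented tetrahedra, each with vertices `0, 1, 2, 3` in the order of its orientation,
whose faces are glued in pairs. The face of tetrahedron `j` opposite to its vertex `a` is glued
to the face of tetrahedron `adj j a` opposite to its vertex `glue j a a`; the gluing map sends
the vertex `v ≠ a` to the vertex `glue j a v`. It reverses the orientation of the faces, that is,
the permutation `glue j a` of `0, 1, 2, 3` is odd. No face is glued to itself. -/
structure Gluing (N : ℕ) where
  /-- the tetrahedron on the other side of the face opposite to `a` -/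
  adj : Fin N → Fin 4 → Fin N
  /-- the gluing map, as a permutation of the vertices -/
  glue : Fin N → Fin 4 → Equiv.Perm (Fin 4)
  adj_adj : ∀ j a, adj (adj j a) (glue j a a) = j
  glue_glue : ∀ j a, glue (adj j a) (glue j a a) = (glue j a)⁻¹
  odd : ∀ j a, Equiv.Perm.sign (glue j a) = -1
  ne_self : ∀ j a, ¬ (adj j a = j ∧ glue j a a = a)

variable {N : ℕ}

/-- The identifications of edges of tetrahedra: `(j, v, w)` is the edge of tetrahedron `j`
between its vertices `v` and `w`; it is the same edge as `(j, w, v)`, and it is glued to an edge
of `adj j a` across each of the two faces of `j` which contain it. -/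
inductive Gluing.EdgeStep (T : Gluing N) :
    Fin N × Fin 4 × Fin 4 → Fin N × Fin 4 × Fin 4 → Prop
  | flip (j : Fin N) (v w : Fin 4) : EdgeStep T (j, v, w) (j, w, v)
  | cross (j : Fin N) (a v w : Fin 4) (hv : v ≠ a) (hw : w ≠ a) :
      EdgeStep T (j, v, w) (T.adj j a, T.glue j a v, T.glue j a w)

/-- The identifications of ideal vertices of tetrahedra. -/
inductive Gluing.VertexStep (T : Gluing N) : Fin N × Fin 4 → Fin N × Fin 4 → Prop
  | cross (j : Fin N) (a v : Fin 4) (hv : v ≠ a) :
      VertexStep T (j, v) (T.adj j a, T.glue j a v)

/-- An oriented ideal triangulation with `N` tetrahedra and `N` edges and with exactly one cusp.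
The edges are numbered: `edge j v w` is the number of the edge of the triangulation which is the
image of the edge `vw` of tetrahedron `j`. All the ideal vertices of the tetrahedra are
identified, so that there is one cusp; as there are as many edges as tetrahedra, the Euler
characteristic of its cross section vanishes, so that the latter is a torus. -/
structure IdealTriangulation (N : ℕ) extends Gluing N where
  /-- the number of the edge -/
  edge : Fin N → Fin 4 → Fin 4 → Fin N
  edge_eq_iff : ∀ {j : Fin N} {v w : Fin 4} {k : Fin N} {x y : Fin 4}, v ≠ w → x ≠ y →
    (edge j v w = edge k x y ↔ Relation.EqvGen toGluing.EdgeStep (j, v, w) (k, x, y))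
  edge_surj : ∀ e, ∃ j v w, v ≠ w ∧ edge j v w = e
  one_cusp : ∀ p q : Fin N × Fin 4, Relation.EqvGen toGluing.VertexStep p q

/-! ### The complete hyperbolic structure -/

/-- The determinant of two vectors. -/
def det2 (u v : Fin 2 → ℂ) : ℂ := u 0 * v 1 - u 1 * v 0

/-- The shape of the ideal tetrahedron with ideal vertices `[u 0], [u 1], [u 2], [u 3]`: the cross
ratio which is `z` when they are `∞, 0, 1, z`. The tetrahedron is positively oriented (and not
flat) if the imaginary part of the shape is positive. -/
noncomputable def shape (u : Fin 4 → Fin 2 → ℂ) : ℂ :=
  det2 (u 1) (u 3) * det2 (u 0) (u 2) / (det2 (u 1) (u 2) * det2 (u 0) (u 3))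

/-- The three shape parameters `z`, `z' = 1 / (1 - z)`, `z'' = 1 - 1 / z`. -/
noncomputable def par (z : ℂ) : Fin 3 → ℂ := ![z, 1 / (1 - z), 1 - 1 / z]

/-- Which of the three shape parameters the edge `vw` (`v ≠ w`) carries: the edges `01` and `23`
carry `z`, the edges `02` and `13` carry `z'`, the edges `03` and `12` carry `z''`. The dihedral
angle at an edge is the argument of its parameter. -/
def kind (v w : Fin 4) : Fin 3 :=
  ![![0, 0, 1, 2], ![0, 0, 2, 1], ![1, 2, 0, 0], ![2, 1, 0, 0]] v w

/-- The complete hyperbolic structure on the manifold `M` triangulated by `T` for which the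
tetrahedra of `T` are geometric (Poincare's polyhedron theorem). The tetrahedron `j` is realised
as the ideal tetrahedron of hyperbolic space with ideal vertices `[vec j v]`, and the face opposite
to `a` is paired by the isometry `pair j a`, which carries the tetrahedron `adj j a` to the other
side of that face of the tetrahedron `j`.
* `im_pos`: the tetrahedra are positively oriented;
* `pair_horo`: the pairings match the ideal vertices of the faces as the gluing prescribes, and
  they match also the horospheres at them (so that the cusp closes up: the structure is complete);
* `edge_angle`: the dihedral angles add up to `2 π` around each edge;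
* `laid_out`: the tetrahedra are laid out as a polyhedron, that is, any two of them can be joined
  by a path of tetrahedra glued directly, with pairing `1`. -/
structure Structure (T : IdealTriangulation N) where
  /-- the ideal vertices, with a horosphere at each -/
  vec : Fin N → Fin 4 → Fin 2 → ℂ
  /-- the face pairings -/
  pair : Fin N → Fin 4 → SL2C
  im_pos : ∀ j, 0 < (shape (vec j)).im
  pair_horo : ∀ j a v, v ≠ a →
    act (pair j a) (horo (vec (T.adj j a) (T.glue j a v))) = horo (vec j v)
  edge_angle : ∀ e, ∑ j, ∑ v, ∑ w,
    (if v < w ∧ T.edge j v w = e then (par (shape (vec j)) (kind v w)).arg else 0) = 2 * Real.pi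
  laid_out : ∀ j k, Relation.ReflTransGen (fun j k => ∃ a, T.adj j a = k ∧ pair j a = 1) j k

variable {T : IdealTriangulation N}

/-- The fundamental group of `M`, as a group of isometries: it is generated by the face pairings
(Poincare's theorem). So `M` is the quotient of hyperbolic space by this group, and the lifts to
hyperbolic space of the tetrahedra of `T` are the translates of the tetrahedra `j` by it. -/
def Structure.grp (S : Structure T) : Subgroup SL2C :=
  Subgroup.closure (Set.range fun x : Fin N × Fin 4 => S.pair x.1 x.2)

/-- The horosphere at the ideal vertex `v` of tetrahedron `j`. -/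
def Structure.vtx (S : Structure T) (j : Fin N) (v : Fin 4) : Mink := horo (S.vec j v)

/-- The horosphere at the ideal vertex opposite to the face, in the tetrahedron on the other side
of the face opposite to `a` of the tetrahedron `j`, developed across this face. -/
def Structure.opp (S : Structure T) (j : Fin N) (a : Fin 4) : Mink :=
  act (S.pair j a) (horo (S.vec (T.adj j a) (T.glue j a a)))

/-- `T` is the canonical triangulation of `M`: the Epstein-Penner polyhedral surface is strictly
convex at each face. That is, for each tetrahedron `j`, if `{X | tr (H X) = 1}` is the affine
hyperplane of Minkowski space through the light cone points of its four vertices, then the light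
cone point of the vertex opposite to the face, in the tetrahedron on the other side of each of its
faces, lies strictly beyond the hyperplane. -/
def Structure.IsCanonical (S : Structure T) : Prop :=
  ∀ j, ∃ H : Mink, H.IsHermitian ∧ (∀ v, (H * S.vtx j v).trace = 1) ∧
    ∀ a, 1 < (H * S.opp j a).trace.re

/-! ### Arcs, topological ideal triangulations, bistellar moves

A proper arc in `M` from the cusp to itself which is not homotopic into the cusp lifts to an arc
between two distinct ideal vertices of the lifted triangulation, and so it determines a pair of
horospheres `{p, q}`, unique up to the action of the fundamental group; two proper arcs are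
properly homotopic if and only if their pairs are equivalent under the fundamental group.

More generally, the simplices of the lifts of the ideal triangulations of `M` considered here are
given by the sets of their vertices, and a triangulation is given by a multiset of
representatives, one for each of its tetrahedra. -/

/-- Two sets of horospheres are equivalent under the group `Γ`. -/
def Equivt (Γ : Subgroup SL2C) (s t : Set Mink) : Prop := ∃ g ∈ Γ, act g '' s = t

/-- `e` is (the vertex set of) an edge of the lift of the triangulation `M`. -/
def IsEdge (Γ : Subgroup SL2C) (M : Multiset (Set Mink)) (e : Set Mink) : Prop :=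
  ∃ s ∈ M, ∃ p ∈ s, ∃ q ∈ s, p ≠ q ∧ Equivt Γ {p, q} e

/-- `f` is (the vertex set of) a face of the lift of the triangulation `M`. -/
def IsFace (Γ : Subgroup SL2C) (M : Multiset (Set Mink)) (f : Set Mink) : Prop :=
  ∃ s ∈ M, ∃ p ∈ s, ∃ q ∈ s, ∃ r ∈ s, p ≠ q ∧ p ≠ r ∧ q ≠ r ∧ Equivt Γ {p, q, r} f

/-- The 2-3 move: two distinct tetrahedra `axyz` and `bxyz` of the triangulation with the common
face `xyz` are replaced by the three tetrahedra `abxy`, `abyz`, `abzx` around the new edge `ab`,
which is the arc dual to the face `xyz`. It is required that the edge `ab` is not yet there. -/
def Move23 (Γ : Subgroup SL2C) (M M' : Multiset (Set Mink)) : Prop :=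
  ∃ (a b x y z : Mink) (R : Multiset (Set Mink)), [a, b, x, y, z].Nodup ∧
    Multiset.Rel (Equivt Γ) M ({a, x, y, z} ::ₘ {b, x, y, z} ::ₘ R) ∧
    M' = {a, b, x, y} ::ₘ {a, b, y, z} ::ₘ {a, b, z, x} ::ₘ R ∧
    ¬ IsEdge Γ M {a, b}

/-- The 3-2 move: three distinct tetrahedra `abxy`, `abyz`, `abzx` of the triangulation around a
common edge `ab` are replaced by the two tetrahedra `axyz` and `bxyz` with the common new face
`xyz`. It is required that the face `xyz` is not yet there. -/
def Move32 (Γ : Subgroup SL2C) (M M' : Multiset (Set Mink)) : Prop :=
  ∃ (a b x y z : Mink) (R : Multiset (Set Mink)), [a, b, x, y, z].Nodup ∧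
    Multiset.Rel (Equivt Γ) M ({a, b, x, y} ::ₘ {a, b, y, z} ::ₘ {a, b, z, x} ::ₘ R) ∧
    M' = {a, x, y, z} ::ₘ {b, x, y, z} ::ₘ R ∧
    ¬ IsFace Γ M {x, y, z}

/-- The tetrahedra of `T`, as sets of horospheres. -/
def Structure.tets (S : Structure T) : Multiset (Set Mink) :=
  (Finset.univ : Finset (Fin N)).val.map fun j => Set.range (S.vtx j)

/-- `M` is an ideal triangulation of the manifold, obtained from `T` by finitely many 2-3 and 3-2
moves. (So it is in general not geometric.) -/
def Structure.IsTriangulation (S : Structure T) (M : Multiset (Set Mink)) : Prop :=
  Relation.ReflTransGen (fun M₁ M₂ => Move23 S.grp M₁ M₂ ∨ Move32 S.grp M₁ M₂) S.tets M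

/-! ### Unknotting tunnels -/

/-- Let `t` be an edge of the ideal triangulation `M`. The exterior of the arc `t` collapses to the
2-dimensional complex which is obtained from the spine dual to `M` by removing the open 2-cell
dual to `t`. This complex has one vertex for each tetrahedron of `M`, one edge for each face of
`M`, and one 2-cell for each edge of `M` other than `t`. The 2-cells at the edge of the spine dual
to a face of `M` are those which are dual to the three edges of that face; if two of these three
have been removed, the third can be collapsed from there (and is then removed, too).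
`Removed Γ M t e` says that the 2-cell dual to the edge `e` can be removed by a sequence of such
collapses. -/
inductive Removed (Γ : Subgroup SL2C) (M : Multiset (Set Mink)) (t : Set Mink) : Set Mink → Prop
  | start : Removed Γ M t t
  | orbit (g : SL2C) (e : Set Mink) : g ∈ Γ → Removed Γ M t e → Removed Γ M t (act g '' e)
  | collapse (x y z : Mink) : IsFace Γ M {x, y, z} →
      Removed Γ M t {x, y} → Removed Γ M t {y, z} → Removed Γ M t {x, z}

/-- The arc `t` is an unknotting tunnel: it is an edge of an ideal triangulation `M` of the
manifold, and all the 2-cells of the spine dual to `M` with the one dual to `t` removed can be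
collapsed, so that the exterior of `t` collapses to a graph, and hence is a handlebody. -/
def Structure.IsTunnel (S : Structure T) (t : Set Mink) : Prop :=
  ∃ M, S.IsTriangulation M ∧ IsEdge S.grp M t ∧
    ∀ e, IsEdge S.grp M e → Removed S.grp M t e

/-- The arc `t` is properly homotopic to an edge of the triangulation `T`. -/
def Structure.HomotopicToEdge (S : Structure T) (t : Set Mink) : Prop :=
  ∃ j v w, v ≠ w ∧ Equivt S.grp {S.vtx j v, S.vtx j w} t

/-- The arc `t` is properly homotopic to the arc dual to a face of the triangulation `T`: this arc
runs from the ideal vertex `a` of tetrahedron `j` across the face opposite to `a` to the ideal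
vertex opposite to this face in the tetrahedron on its other side. -/
def Structure.HomotopicToDual (S : Structure T) (t : Set Mink) : Prop :=
  ∃ j a, Equivt S.grp {S.vtx j a, S.opp j a} t

end Pool.Agent.H810.Tunnel
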