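import Pool.Agent.H810.Tunnel.Approx

/-!
# Integer intervals
-/

set_option autoImplicit false

namespace Pool.Agent.H810.Tunnel

/-- An interval with integer end points. -/
structure Iv where
  lo : ℤ
  hi : ℤ
deriving DecidableEq

namespace Iv

/-- Membership of a real number. -/
def Mem (I : Iv) (x : ℝ) : Prop := (I.lo : ℝ) ≤ x ∧ x ≤ (I.hi : ℝ)

def add (I J : Iv) : Iv := ⟨I.lo + J.lo, I.hi + J.hi⟩
def sub (I J : Iv) : Iv := ⟨I.lo - J.hi, I.hi - J.lo⟩
def mul (I J : Iv) : Iv :=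
  ⟨min (min (I.lo * J.lo) (I.lo * J.hi)) (min (I.hi * J.lo) (I.hi * J.hi)),
   max (max (I.lo * J.lo) (I.lo * J.hi)) (max (I.hi * J.lo) (I.hi * J.hi))⟩

theorem add_mem {I J : Iv} {x y : ℝ} (hx : I.Mem x) (hy : J.Mem y) : (I.add J).Mem (x + y) := by
  obtain ⟨h1, h2⟩ := hx
  obtain ⟨h3, h4⟩ := hy
  constructor <;> simp only [add] <;> push_cast <;> linarith

theorem sub_mem {I J : Iv} {x y : ℝ} (hx : I.Mem x) (hy : J.Mem y) : (I.sub J).Mem (x - y) := by
  obtain ⟨h1, h2⟩ := hx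
  obtain ⟨h3, h4⟩ := hy
  constructor <;> simp only [sub] <;> push_cast <;> linarith

theorem lin_mem {a b t x : ℝ} (h1 : a ≤ x) (h2 : x ≤ b) :
    min (a * t) (b * t) ≤ x * t ∧ x * t ≤ max (a * t) (b * t) := by
  rcases le_total 0 t with ht | ht
  · exact ⟨(min_le_left _ _).trans (mul_le_mul_of_nonneg_right h1 ht),
      (mul_le_mul_of_nonneg_right h2 ht).trans (le_max_right _ _)⟩
  · exact ⟨(min_le_right _ _).trans (mul_le_mul_of_nonpos_right h2 ht),
      (mul_le_mul_of_nonpos_right h1 ht).trans (le_max_left _ _)⟩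

theorem mul_mem {I J : Iv} {x y : ℝ} (hx : I.Mem x) (hy : J.Mem y) : (I.mul J).Mem (x * y) := by
  obtain ⟨h1, h2⟩ := hx
  obtain ⟨h3, h4⟩ := hy
  have ha := lin_mem (t := y) h1 h2
  have hb := lin_mem (t := (I.lo : ℝ)) h3 h4
  have hc := lin_mem (t := (I.hi : ℝ)) h3 h4
  constructor
  · simp only [mul]; push_cast
    refine le_trans ?_ ha.1
    refine le_min ?_ ?_
    · refine (min_le_left _ _).trans ?_
      rw [mul_comm (I.lo : ℝ) y, mul_comm (I.lo : ℝ), mul_comm (I.lo : ℝ)]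
      exact hb.1
    · refine (min_le_right _ _).trans ?_
      rw [mul_comm (I.hi : ℝ) y, mul_comm (I.hi : ℝ), mul_comm (I.hi : ℝ)]
      exact hc.1
  · simp only [mul]; push_cast
    refine ha.2.trans ?_
    refine max_le ?_ ?_
    · refine le_trans ?_ (le_max_left _ _)
      rw [mul_comm (I.lo : ℝ) y, mul_comm (I.lo : ℝ), mul_comm (I.lo : ℝ)]
      exact hb.2
    · refine le_trans ?_ (le_max_right _ _)
      rw [mul_comm (I.hi : ℝ) y, mul_comm (I.hi : ℝ), mul_comm (I.hi : ℝ)]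
      exact hc.2

/-- Separation of intervals. -/
def sep (I J : Iv) : Bool := decide (I.hi < J.lo) || decide (J.hi < I.lo)

theorem ne_of_sep {I J : Iv} {x y : ℝ} (hx : I.Mem x) (hy : J.Mem y) (h : sep I J = true) :
    x ≠ y := by
  rintro rfl
  obtain ⟨h1, h2⟩ := hx
  obtain ⟨h3, h4⟩ := hy
  simp only [sep, Bool.or_eq_true, decide_eq_true_eq] at h
  rcases h with h | h
  · have : (I.hi : ℝ) < (J.lo : ℝ) := by exact_mod_cast h
    linarith
  · have : (J.hi : ℝ) < (I.lo : ℝ) := by exact_mod_cast h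
    linarith

end Iv

namespace Z5

/-- Approximate real part, in units of `10⁻¹²`. -/
def reA (z : Z5) : ℤ :=
  1000000000000 * z.a + 685154314446 * z.b + (-289913987444) * z.c + (-1239180255003) * z.d
    + (-1341816898853) * z.e

/-- Approximate imaginary part, in units of `10⁻¹²`. -/
def imA (z : Z5) : ℤ :=
  (-871407150561) * z.b + (-1194096737693) * z.c + (-565507409990) * z.d + 692370693237 * z.e

/-- Error bound, in units of `10⁻¹²`. -/
def er (z : Z5) : ℤ :=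
  100 * ((z.b.natAbs + z.c.natAbs + z.d.natAbs + z.e.natAbs : ℕ) : ℤ)

variable {θ : ℂ}

theorem er_cast (z : Z5) :
    ((z.er : ℤ) : ℝ) = 100 * (|(z.b : ℝ)| + |(z.c : ℝ)| + |(z.d : ℝ)| + |(z.e : ℝ)|) := by
  simp only [er]
  push_cast
  rfl

theorem re_bound (h : Good θ) (z : Z5) :
    |(10 ^ 12 : ℝ) * (ev θ z).re - z.reA| ≤ z.er := by
  have h1 : (10 ^ 12 : ℝ) * (ev θ z).re - z.reA =
      z.b * ((10 ^ 12 : ℝ) * θ.re - 685154314446) +
      z.c * ((10 ^ 12 : ℝ) * (θ ^ 2).re + 289913987444) +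
      z.d * ((10 ^ 12 : ℝ) * (θ ^ 3).re + 1239180255003) +
      z.e * ((10 ^ 12 : ℝ) * (θ ^ 4).re + 1341816898853) := by
    simp only [ev, Complex.add_re, Complex.mul_re, Complex.intCast_re, Complex.intCast_im, reA]
    push_cast
    ring
  rw [h1, er_cast]
  have t1 := abs_mul (z.b : ℝ) ((10 ^ 12 : ℝ) * θ.re - 685154314446)
  have t2 := abs_mul (z.c : ℝ) ((10 ^ 12 : ℝ) * (θ ^ 2).re + 289913987444)
  have t3 := abs_mul (z.d : ℝ) ((10 ^ 12 : ℝ) * (θ ^ 3).re + 1239180255003)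
  have t4 := abs_mul (z.e : ℝ) ((10 ^ 12 : ℝ) * (θ ^ 4).re + 1341816898853)
  have u1 := mul_le_mul_of_nonneg_left h.r1 (abs_nonneg (z.b : ℝ))
  have u2 := mul_le_mul_of_nonneg_left h.r2 (abs_nonneg (z.c : ℝ))
  have u3 := mul_le_mul_of_nonneg_left h.r3 (abs_nonneg (z.d : ℝ))
  have u4 := mul_le_mul_of_nonneg_left h.r4 (abs_nonneg (z.e : ℝ))
  refine (abs_add_le _ _).trans ?_
  refine (add_le_add_left (abs_add_le _ _) _).trans ?_
  refine (add_le_add_left (add_le_add_left (abs_add_le _ _) _) _).trans ?_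
  rw [t1, t2, t3, t4]
  linarith

theorem im_bound (h : Good θ) (z : Z5) :
    |(10 ^ 12 : ℝ) * (ev θ z).im - z.imA| ≤ z.er := by
  have h1 : (10 ^ 12 : ℝ) * (ev θ z).im - z.imA =
      z.b * ((10 ^ 12 : ℝ) * θ.im + 871407150561) +
      z.c * ((10 ^ 12 : ℝ) * (θ ^ 2).im + 1194096737693) +
      z.d * ((10 ^ 12 : ℝ) * (θ ^ 3).im + 565507409990) +
      z.e * ((10 ^ 12 : ℝ) * (θ ^ 4).im - 692370693237) := by
    simp only [ev, Complex.add_im, Complex.mul_im, Complex.intCast_re, Complex.intCast_im, imA]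
    push_cast
    ring
  rw [h1, er_cast]
  have t1 := abs_mul (z.b : ℝ) ((10 ^ 12 : ℝ) * θ.im + 871407150561)
  have t2 := abs_mul (z.c : ℝ) ((10 ^ 12 : ℝ) * (θ ^ 2).im + 1194096737693)
  have t3 := abs_mul (z.d : ℝ) ((10 ^ 12 : ℝ) * (θ ^ 3).im + 565507409990)
  have t4 := abs_mul (z.e : ℝ) ((10 ^ 12 : ℝ) * (θ ^ 4).im - 692370693237)
  have u1 := mul_le_mul_of_nonneg_left h.i1 (abs_nonneg (z.b : ℝ))
  have u2 := mul_le_mul_of_nonneg_left h.i2 (abs_nonneg (z.c : ℝ))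
  have u3 := mul_le_mul_of_nonneg_left h.i3 (abs_nonneg (z.d : ℝ))
  have u4 := mul_le_mul_of_nonneg_left h.i4 (abs_nonneg (z.e : ℝ))
  refine (abs_add_le _ _).trans ?_
  refine (add_le_add_left (abs_add_le _ _) _).trans ?_
  refine (add_le_add_left (add_le_add_left (abs_add_le _ _) _) _).trans ?_
  rw [t1, t2, t3, t4]
  linarith

/-- The interval of the imaginary part. -/
def imI (z : Z5) : Iv := ⟨z.imA - z.er, z.imA + z.er⟩

theorem imI_mem (h : Good θ) (z : Z5) : (imI z).Mem ((10 ^ 12 : ℝ) * (ev θ z).im) := by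
  have := im_bound h z
  rw [abs_le] at this
  simp only [imI, Iv.Mem]
  push_cast
  constructor <;> linarith [this.1, this.2]

/-- The interval of the squared absolute value, in units of `10⁻²⁴`. -/
def nI (z : Z5) : Iv :=
  ⟨z.reA * z.reA + z.imA * z.imA - 2 * z.er * (|z.reA| + |z.imA|),
   z.reA * z.reA + z.imA * z.imA + 2 * z.er * (|z.reA| + |z.imA| + z.er)⟩

theorem sq_bounds {x a e : ℝ} (h : |x - a| ≤ e) :
    a * a - 2 * e * |a| ≤ x * x ∧ x * x ≤ a * a + 2 * e * |a| + e * e := by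
  have he : 0 ≤ e := (abs_nonneg _).trans h
  have h1 : x * x = a * a + 2 * (a * (x - a)) + (x - a) * (x - a) := by ring
  have h2 : |a * (x - a)| ≤ |a| * e := by
    rw [abs_mul]; exact mul_le_mul_of_nonneg_left h (abs_nonneg _)
  have h3 : (x - a) * (x - a) ≤ e * e := by
    rw [← abs_mul_abs_self (x - a)]
    exact mul_le_mul h h (abs_nonneg _) he
  have h4 : 0 ≤ (x - a) * (x - a) := mul_self_nonneg _
  rw [abs_le] at h2
  constructor <;> nlinarith [h2.1, h2.2]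

theorem nI_mem (h : Good θ) (z : Z5) :
    (nI z).Mem ((10 ^ 24 : ℝ) * Complex.normSq (ev θ z)) := by
  have h1 := sq_bounds (re_bound h z)
  have h2 := sq_bounds (im_bound h z)
  have e1 : (10 ^ 24 : ℝ) * Complex.normSq (ev θ z) =
      ((10 ^ 12 : ℝ) * (ev θ z).re) * ((10 ^ 12 : ℝ) * (ev θ z).re) +
      ((10 ^ 12 : ℝ) * (ev θ z).im) * ((10 ^ 12 : ℝ) * (ev θ z).im) := by
    rw [Complex.normSq_apply]; ring
  rw [e1]
  simp only [nI, Iv.Mem]
  push_cast
  constructor <;> nlinarith [h1.1, h1.2, h2.1, h2.2]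

end Z5

end Pool.Agent.H810.Tunnel
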