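import Pool.Agent.H810.Tunnel.Defs

/-!
# Exact and approximate arithmetic in the ring `ℤ[θ]`, `θ⁵ = θ⁴ + θ³ - 2 θ² + θ + 1`
-/

set_option autoImplicit false

namespace Pool.Agent.H810.Tunnel

open Matrix

/-- The element `a + b θ + c θ² + d θ³ + e θ⁴` of `ℤ[θ]`. -/
structure Z5 where
  a : ℤ
  b : ℤ
  c : ℤ
  d : ℤ
  e : ℤ
deriving DecidableEq

namespace Z5

def zero : Z5 := ⟨0, 0, 0, 0, 0⟩
def one : Z5 := ⟨1, 0, 0, 0, 0⟩
def add (x y : Z5) : Z5 := ⟨x.a + y.a, x.b + y.b, x.c + y.c, x.d + y.d, x.e + y.e⟩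
def sub (x y : Z5) : Z5 := ⟨x.a - y.a, x.b - y.b, x.c - y.c, x.d - y.d, x.e - y.e⟩
def neg (x : Z5) : Z5 := ⟨-x.a, -x.b, -x.c, -x.d, -x.e⟩

/-- The reduction of `c₀ + ... + c₈ θ⁸`. -/
def red (c0 c1 c2 c3 c4 c5 c6 c7 c8 : ℤ) : Z5 :=
  ⟨c0 + c5 + c6 + 2 * c7 + c8,
   c1 + c5 + 2 * c6 + 3 * c7 + 3 * c8,
   c2 - 2 * c5 - c6 - 2 * c7 + c8,
   c3 + c5 - c6 + c7 - c8,
   c4 + c5 + 2 * c6 + c7 + 2 * c8⟩

def mul (x y : Z5) : Z5 :=
  red (x.a * y.a)
    (x.a * y.b + x.b * y.a)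
    (x.a * y.c + x.b * y.b + x.c * y.a)
    (x.a * y.d + x.b * y.c + x.c * y.b + x.d * y.a)
    (x.a * y.e + x.b * y.d + x.c * y.c + x.d * y.b + x.e * y.a)
    (x.b * y.e + x.c * y.d + x.d * y.c + x.e * y.b)
    (x.c * y.e + x.d * y.d + x.e * y.c)
    (x.d * y.e + x.e * y.d)
    (x.e * y.e)

/-- The value at `θ`. -/
def ev (θ : ℂ) (x : Z5) : ℂ := x.a + x.b * θ + x.c * θ ^ 2 + x.d * θ ^ 3 + x.e * θ ^ 4

/-- The equation of `θ`. -/
def IsTheta (θ : ℂ) : Prop := θ ^ 5 = 1 + θ - 2 * θ ^ 2 + θ ^ 3 + θ ^ 4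

variable {θ : ℂ}

@[simp] theorem ev_zero : ev θ zero = 0 := by simp [ev, zero]
@[simp] theorem ev_one : ev θ one = 1 := by simp [ev, one]
theorem ev_add (x y : Z5) : ev θ (add x y) = ev θ x + ev θ y := by
  simp only [ev, add]; push_cast; ring
theorem ev_sub (x y : Z5) : ev θ (sub x y) = ev θ x - ev θ y := by
  simp only [ev, sub]; push_cast; ring
theorem ev_neg (x : Z5) : ev θ (neg x) = -ev θ x := by
  simp only [ev, neg]; push_cast; ring

theorem ev_red (h : IsTheta θ) (c0 c1 c2 c3 c4 c5 c6 c7 c8 : ℤ) :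
    ev θ (red c0 c1 c2 c3 c4 c5 c6 c7 c8) =
      c0 + c1 * θ + c2 * θ ^ 2 + c3 * θ ^ 3 + c4 * θ ^ 4 + c5 * θ ^ 5 + c6 * θ ^ 6
        + c7 * θ ^ 7 + c8 * θ ^ 8 := by
  have h5 : θ ^ 5 = 1 + θ - 2 * θ ^ 2 + θ ^ 3 + θ ^ 4 := h
  simp only [ev, red]; push_cast
  linear_combination (-(c5 : ℂ) - c6 * (θ + 1) - c7 * (θ ^ 2 + θ + 2)
    - c8 * (θ ^ 3 + θ ^ 2 + 2 * θ + 1)) * h5

theorem ev_mul (h : IsTheta θ) (x y : Z5) : ev θ (mul x y) = ev θ x * ev θ y := by
  rw [mul, ev_red h]; simp only [ev]; push_cast; ring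

end Z5

open Z5

/-! ### Vectors -/

/-- A vector in `ℤ[θ]²`. -/
structure V2 where
  x : Z5
  y : Z5
deriving DecidableEq

namespace V2

def neg (u : V2) : V2 := ⟨u.x.neg, u.y.neg⟩
def det (u v : V2) : Z5 := (u.x.mul v.y).sub (u.y.mul v.x)
def ev (θ : ℂ) (u : V2) : Fin 2 → ℂ := ![Z5.ev θ u.x, Z5.ev θ u.y]
/-- Equality up to sign. -/
def same (u v : V2) : Bool := decide (u = v) || decide (u = v.neg)

variable {θ : ℂ}

theorem det_ev (h : IsTheta θ) (u v : V2) : det2 (u.ev θ) (v.ev θ) = Z5.ev θ (det u v) := by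
  simp [det2, ev, det, ev_sub, ev_mul h]

theorem horo_neg (u : Fin 2 → ℂ) : horo (-u) = horo u := by
  ext i j; simp [horo, vecMulVec_apply]

theorem ev_neg (u : V2) : (u.neg).ev θ = -(u.ev θ) := by
  ext i; fin_cases i <;> simp [neg, ev, Z5.ev_neg]

theorem horo_of_same {u v : V2} (h : same u v = true) : horo (u.ev θ) = horo (v.ev θ) := by
  simp only [same, Bool.or_eq_true, decide_eq_true_eq] at h
  rcases h with h | h
  · rw [h]
  · rw [h, ev_neg, horo_neg]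

end V2

/-! ### Matrices -/

/-- A matrix over `ℤ[θ]`, with rows `p q` and `r s`. -/
structure M4 where
  p : Z5
  q : Z5
  r : Z5
  s : Z5
deriving DecidableEq

namespace M4

def one : M4 := ⟨Z5.one, Z5.zero, Z5.zero, Z5.one⟩
def mul (A B : M4) : M4 :=
  ⟨(A.p.mul B.p).add (A.q.mul B.r), (A.p.mul B.q).add (A.q.mul B.s),
   (A.r.mul B.p).add (A.s.mul B.r), (A.r.mul B.q).add (A.s.mul B.s)⟩
def det (A : M4) : Z5 := (A.p.mul A.s).sub (A.q.mul A.r)
def app (A : M4) (u : V2) : V2 :=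
  ⟨(A.p.mul u.x).add (A.q.mul u.y), (A.r.mul u.x).add (A.s.mul u.y)⟩
def ev (θ : ℂ) (A : M4) : Matrix (Fin 2) (Fin 2) ℂ :=
  !![Z5.ev θ A.p, Z5.ev θ A.q; Z5.ev θ A.r, Z5.ev θ A.s]

variable {θ : ℂ}

theorem ev_one : (M4.one).ev θ = 1 := by
  ext i j; fin_cases i <;> fin_cases j <;> simp [ev, one]

theorem ev_mul (h : IsTheta θ) (A B : M4) : (A.mul B).ev θ = A.ev θ * B.ev θ := by
  simp only [ev, mul, ev_add, Z5.ev_mul h]
  ext i j; fin_cases i <;> fin_cases j <;> simp [Matrix.mul_apply, Fin.sum_univ_two]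

theorem ev_det (h : IsTheta θ) (A : M4) : (A.ev θ).det = Z5.ev θ A.det := by
  simp [ev, det, Matrix.det_fin_two, ev_sub, Z5.ev_mul h]

theorem ev_app (h : IsTheta θ) (A : M4) (u : V2) :
    (A.app u).ev θ = A.ev θ *ᵥ u.ev θ := by
  ext i; fin_cases i <;>
    simp [ev, app, V2.ev, ev_add, Z5.ev_mul h, Matrix.mulVec, dotProduct, Fin.sum_univ_two]

end M4

/-! ### The action on horospheres -/

theorem act_horo (g : SL2C) (u : Fin 2 → ℂ) : act g (horo u) = horo (g.1 *ᵥ u) := by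
  ext i j
  simp only [act, horo, Matrix.mul_apply, vecMulVec_apply, Matrix.conjTranspose_apply,
    Matrix.mulVec, dotProduct, Fin.sum_univ_two, Pi.star_apply, star_add, star_mul']
  ring

theorem act_add (g : SL2C) (X Y : Mink) : act g (X + Y) = act g X + act g Y := by
  simp [act, Matrix.mul_add, Matrix.add_mul]

theorem act_mul (g h : SL2C) (X : Mink) : act (g * h) X = act g (act h X) := by
  simp [act, Matrix.mul_assoc, Matrix.conjTranspose_mul]

theorem act_one (X : Mink) : act 1 X = X := by simp [act]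

theorem act_inj (g : SL2C) : Function.Injective (act g) := by
  intro X Y h
  have := congrArg (act g⁻¹) h
  rwa [← act_mul, ← act_mul, inv_mul_cancel, act_one, act_one] at this

theorem det_act (g : SL2C) (X : Mink) : (act g X).det = X.det := by
  have h : ((g.1)ᴴ).det = 1 := by rw [Matrix.det_conjTranspose]; simp
  simp [act, Matrix.det_mul, h]

theorem act_image_mul (g h : SL2C) (s : Set Mink) : act (g * h) '' s = act g '' (act h '' s) := by
  rw [← Set.image_comp]; congr 1; ext X; simp [act_mul]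

theorem act_image_one (s : Set Mink) : act 1 '' s = s := by
  have : act 1 = id := by funext X; exact act_one X
  rw [this, Set.image_id]

theorem Equivt.refl (Γ : Subgroup SL2C) (s : Set Mink) : Equivt Γ s s :=
  ⟨1, Γ.one_mem, act_image_one s⟩

theorem Equivt.symm {Γ : Subgroup SL2C} {s t : Set Mink} (h : Equivt Γ s t) : Equivt Γ t s := by
  obtain ⟨g, hg, rfl⟩ := h
  refine ⟨g⁻¹, Γ.inv_mem hg, ?_⟩
  rw [← act_image_mul, inv_mul_cancel, act_image_one]

theorem Equivt.trans {Γ : Subgroup SL2C} {s t r : Set Mink} (h : Equivt Γ s t)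
    (h' : Equivt Γ t r) : Equivt Γ s r := by
  obtain ⟨g, hg, rfl⟩ := h
  obtain ⟨g', hg', rfl⟩ := h'
  exact ⟨g' * g, Γ.mul_mem hg' hg, act_image_mul _ _ _⟩

/-- The invariant of a pair of horospheres. -/
theorem det_add_horo (u v : Fin 2 → ℂ) :
    (horo u + horo v).det = (Complex.normSq (det2 u v) : ℂ) := by
  rw [← Complex.mul_conj]
  simp [horo, Matrix.det_fin_two, vecMulVec_apply, det2]
  ring

theorem det_add3_horo (u v w : Fin 2 → ℂ) :
    (horo u + horo v + horo w).det =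
      ((Complex.normSq (det2 u v) + Complex.normSq (det2 u w) + Complex.normSq (det2 v w) : ℝ)
        : ℂ) := by
  push_cast
  rw [← Complex.mul_conj, ← Complex.mul_conj, ← Complex.mul_conj]
  simp [horo, Matrix.det_fin_two, vecMulVec_apply, det2]
  ring

end Pool.Agent.H810.Tunnel
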