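import Pool.Agent.H810.Tunnel.Interval

/-!
# The hyperplane through the light cone points of a tetrahedron
-/

set_option autoImplicit false

namespace Pool.Agent.H810.Tunnel

open Matrix

/-- The Gram determinant. -/
def DD {R : Type} (mul sub add : R → R → R) (A B C E F K : R) : R :=
  let a := mul A K
  let b := mul B F
  let c := mul C E
  let s := add (add (mul a a) (mul b b)) (mul c c)
  let t := add (add (mul a b) (mul a c)) (mul b c)
  sub s (add t t)

/-- The coefficient of a vertex: `P, Q, R` are the three edges which do not contain the vertex,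
and `p, q, r` are the products of the opposite pairs which contain them. -/
def NN {R : Type} (mul sub add : R → R → R) (P Q S p q r : R) : R :=
  let m := mul (mul P Q) S
  add (add (add (add m m) (mul P (sub (sub p q) r))) (mul Q (sub (sub q p) r)))
    (mul S (sub (sub r p) q))

/-- The gap: it is positive if the point with the inner products `x₀, ..., x₃` is beyond the
hyperplane (when the Gram determinant is negative). -/
def gap {R : Type} (mul sub add : R → R → R) (A B C E F K x0 x1 x2 x3 : R) : R :=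
  let a := mul A K
  let b := mul B F
  let c := mul C E
  sub (DD mul sub add A B C E F K)
    (add (add (mul (NN mul sub add K F E a b c) x0) (mul (NN mul sub add K B C a b c) x1))
      (add (mul (NN mul sub add A F C a b c) x2) (mul (NN mul sub add A B E a b c) x3)))

/-- The real versions. -/
def DR : ℝ → ℝ → ℝ → ℝ → ℝ → ℝ → ℝ := DD (· * ·) (· - ·) (· + ·)
def NR : ℝ → ℝ → ℝ → ℝ → ℝ → ℝ → ℝ := NN (· * ·) (· - ·) (· + ·)
def gapR : ℝ → ℝ → ℝ → ℝ → ℝ → ℝ → ℝ → ℝ → ℝ → ℝ → ℝ := gap (· * ·) (· - ·) (· + ·)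

theorem DD_mem {A B C E F K : Iv} {a b c e f k : ℝ} (hA : A.Mem a) (hB : B.Mem b) (hC : C.Mem c)
    (hE : E.Mem e) (hF : F.Mem f) (hK : K.Mem k) :
    (DD Iv.mul Iv.sub Iv.add A B C E F K).Mem (DR a b c e f k) := by
  have h1 := Iv.mul_mem hA hK
  have h2 := Iv.mul_mem hB hF
  have h3 := Iv.mul_mem hC hE
  have h4 := Iv.add_mem (Iv.add_mem (Iv.mul_mem h1 h2) (Iv.mul_mem h1 h3)) (Iv.mul_mem h2 h3)
  exact Iv.sub_mem
    (Iv.add_mem (Iv.add_mem (Iv.mul_mem h1 h1) (Iv.mul_mem h2 h2)) (Iv.mul_mem h3 h3))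
    (Iv.add_mem h4 h4)

theorem NN_mem {A B C E F K : Iv} {a b c e f k : ℝ} (hA : A.Mem a) (hB : B.Mem b) (hC : C.Mem c)
    (hE : E.Mem e) (hF : F.Mem f) (hK : K.Mem k) :
    (NN Iv.mul Iv.sub Iv.add A B C E F K).Mem (NR a b c e f k) := by
  have h1 := Iv.mul_mem (Iv.mul_mem hA hB) hC
  exact Iv.add_mem (Iv.add_mem (Iv.add_mem (Iv.add_mem h1 h1)
    (Iv.mul_mem hA (Iv.sub_mem (Iv.sub_mem hE hF) hK)))
    (Iv.mul_mem hB (Iv.sub_mem (Iv.sub_mem hF hE) hK)))
    (Iv.mul_mem hC (Iv.sub_mem (Iv.sub_mem hK hE) hF))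

theorem gap_mem {A B C E F K X0 X1 X2 X3 : Iv} {a b c e f k x0 x1 x2 x3 : ℝ}
    (hA : A.Mem a) (hB : B.Mem b) (hC : C.Mem c)
    (hE : E.Mem e) (hF : F.Mem f) (hK : K.Mem k)
    (h0 : X0.Mem x0) (h1 : X1.Mem x1) (h2 : X2.Mem x2) (h3 : X3.Mem x3) :
    (gap Iv.mul Iv.sub Iv.add A B C E F K X0 X1 X2 X3).Mem (gapR a b c e f k x0 x1 x2 x3) := by
  have g1 := Iv.mul_mem hA hK
  have g2 := Iv.mul_mem hB hF
  have g3 := Iv.mul_mem hC hE
  exact Iv.sub_mem (DD_mem hA hB hC hE hF hK)
    (Iv.add_mem (Iv.add_mem (Iv.mul_mem (NN_mem hK hF hE g1 g2 g3) h0)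
      (Iv.mul_mem (NN_mem hK hB hC g1 g2 g3) h1))
      (Iv.add_mem (Iv.mul_mem (NN_mem hA hF hC g1 g2 g3) h2)
      (Iv.mul_mem (NN_mem hA hB hE g1 g2 g3) h3)))

theorem DR_scale (t a b c e f k : ℝ) :
    DR (t * a) (t * b) (t * c) (t * e) (t * f) (t * k) = t ^ 4 * DR a b c e f k := by
  simp only [DR, DD]; ring

theorem gapR_scale (t a b c e f k x0 x1 x2 x3 : ℝ) :
    gapR (t * a) (t * b) (t * c) (t * e) (t * f) (t * k) (t * x0) (t * x1) (t * x2) (t * x3) =
      t ^ 4 * gapR a b c e f k x0 x1 x2 x3 := by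
  simp only [gapR, gap, DD, NN]; ring

/-- The inner product with a light cone point. -/
theorem trace_adj_horo (u w : Fin 2 → ℂ) :
    ((horo u).adjugate * horo w).trace = (Complex.normSq (det2 u w) : ℂ) := by
  rw [← Complex.mul_conj, Matrix.trace_fin_two, Matrix.mul_apply, Matrix.mul_apply,
    Fin.sum_univ_two, Fin.sum_univ_two]
  simp only [Matrix.adjugate_fin_two, horo, Matrix.of_apply, Matrix.cons_val', Matrix.cons_val_zero,
    Matrix.cons_val_one, Matrix.cons_val_fin_one, vecMulVec_apply, det2, Pi.star_apply,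
    Complex.star_def, map_sub, map_mul]
  ring

theorem adj_horo_herm (u : Fin 2 → ℂ) : ((horo u).adjugate).IsHermitian := by
  have h : (horo u).IsHermitian := by
    ext i j; simp [horo, vecMulVec_apply, mul_comm]
  exact h.adjugate

/-- The normalised hyperplane through four light cone points. -/
theorem exists_plane (u : Fin 4 → Fin 2 → ℂ)
    (hD : DR (Complex.normSq (det2 (u 0) (u 1))) (Complex.normSq (det2 (u 0) (u 2)))
      (Complex.normSq (det2 (u 0) (u 3))) (Complex.normSq (det2 (u 1) (u 2)))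
      (Complex.normSq (det2 (u 1) (u 3))) (Complex.normSq (det2 (u 2) (u 3))) < 0) :
    ∃ H : Mink, H.IsHermitian ∧ (∀ v, (H * horo (u v)).trace = 1) ∧
      ∀ w : Fin 2 → ℂ, 0 < gapR (Complex.normSq (det2 (u 0) (u 1)))
        (Complex.normSq (det2 (u 0) (u 2)))
        (Complex.normSq (det2 (u 0) (u 3))) (Complex.normSq (det2 (u 1) (u 2)))
        (Complex.normSq (det2 (u 1) (u 3))) (Complex.normSq (det2 (u 2) (u 3)))
        (Complex.normSq (det2 (u 0) w)) (Complex.normSq (det2 (u 1) w))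
        (Complex.normSq (det2 (u 2) w)) (Complex.normSq (det2 (u 3) w)) →
        1 < (H * horo w).trace.re := by
  set A := Complex.normSq (det2 (u 0) (u 1)) with hA
  set B := Complex.normSq (det2 (u 0) (u 2)) with hB
  set C := Complex.normSq (det2 (u 0) (u 3)) with hC
  set E := Complex.normSq (det2 (u 1) (u 2)) with hE
  set F := Complex.normSq (det2 (u 1) (u 3)) with hF
  set K := Complex.normSq (det2 (u 2) (u 3)) with hK
  have anti : ∀ i j, Complex.normSq (det2 (u i) (u j)) = Complex.normSq (det2 (u j) (u i)) := by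
    intro i j
    have : det2 (u i) (u j) = -det2 (u j) (u i) := by simp only [det2]; ring
    rw [this, Complex.normSq_neg]
  have diag : ∀ i, Complex.normSq (det2 (u i) (u i)) = 0 := by
    intro i
    have : det2 (u i) (u i) = 0 := by simp only [det2]; ring
    rw [this, Complex.normSq_zero]
  let n0 := NR K F E (A * K) (B * F) (C * E)
  let n1 := NR K B C (A * K) (B * F) (C * E)
  let n2 := NR A F C (A * K) (B * F) (C * E)
  let n3 := NR A B E (A * K) (B * F) (C * E)
  let D := DR A B C E F K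
  have hD' : D ≠ 0 := ne_of_lt hD
  let H : Mink := ((n0 / D : ℝ) : ℂ) • (horo (u 0)).adjugate +
    ((n1 / D : ℝ) : ℂ) • (horo (u 1)).adjugate +
    (((n2 / D : ℝ) : ℂ) • (horo (u 2)).adjugate +
    ((n3 / D : ℝ) : ℂ) • (horo (u 3)).adjugate)
  have hsm : ∀ (r : ℝ) (v : Fin 4), (((r : ℂ)) • (horo (u v)).adjugate).IsHermitian := by
    intro r v
    have := adj_horo_herm (u v)
    unfold Matrix.IsHermitian at this ⊢
    rw [Matrix.conjTranspose_smul, this]
    simp
  have htr : ∀ w, (H * horo w).trace = (((n0 * Complex.normSq (det2 (u 0) w)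
      + n1 * Complex.normSq (det2 (u 1) w) + (n2 * Complex.normSq (det2 (u 2) w)
      + n3 * Complex.normSq (det2 (u 3) w))) / D : ℝ) : ℂ) := by
    intro w
    simp only [H, Matrix.add_mul, Matrix.smul_mul, Matrix.trace_add, Matrix.trace_smul,
      trace_adj_horo, smul_eq_mul]
    push_cast
    ring
  refine ⟨H, ((hsm _ _).add (hsm _ _)).add ((hsm _ _).add (hsm _ _)), ?_, ?_⟩
  · intro v
    rw [htr, ← Complex.ofReal_one]
    congr 1
    rw [div_eq_one_iff_eq hD']
    fin_cases v
    · simp only [Fin.zero_eta, Fin.isValue, diag]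
      rw [anti 1 0, anti 2 0, anti 3 0, ← hA, ← hB, ← hC]
      simp only [n0, n1, n2, n3, D, NR, NN, DR, DD]
      ring
    · simp only [Fin.mk_one, Fin.isValue, diag]
      rw [anti 2 1, anti 3 1, ← hA, ← hE, ← hF]
      simp only [n0, n1, n2, n3, D, NR, NN, DR, DD]
      ring
    · simp only [Fin.reduceFinMk, Fin.isValue, diag]
      rw [anti 3 2, ← hB, ← hE, ← hK]
      simp only [n0, n1, n2, n3, D, NR, NN, DR, DD]
      ring
    · simp only [Fin.reduceFinMk, Fin.isValue, diag]
      rw [← hC, ← hF, ← hK]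
      simp only [n0, n1, n2, n3, D, NR, NN, DR, DD]
      ring
  · intro w hw
    rw [htr, Complex.ofReal_re, lt_div_iff_of_neg hD]
    have e : gapR A B C E F K (Complex.normSq (det2 (u 0) w)) (Complex.normSq (det2 (u 1) w))
        (Complex.normSq (det2 (u 2) w)) (Complex.normSq (det2 (u 3) w)) =
        D - (n0 * Complex.normSq (det2 (u 0) w)
      + n1 * Complex.normSq (det2 (u 1) w) + (n2 * Complex.normSq (det2 (u 2) w)
      + n3 * Complex.normSq (det2 (u 3) w))) := rfl
    rw [e] at hw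
    linarith

end Pool.Agent.H810.Tunnel
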